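import Mathlib

/-! The choice of the parameters. -/

namespace Pool.Agent.Lib.MP_dee342_nt.Ar

theorem asym_exp (x : ℝ) : x ≤ Real.exp x := by linarith [Real.add_one_le_exp x]

theorem asym_pow {x : ℝ} (hx : 0 ≤ x) (n : ℕ) : x ^ n ≤ Real.exp (n * x) := by
  rw [Real.exp_nat_mul]
  exact pow_le_pow_left₀ hx (asym_exp x) n

theorem asym_Z {R : ℕ} (hR : 1 ≤ R) {D L : ℝ} (hD : 0 ≤ D) (hL : 0 ≤ L) :
    ((R ^ 20 * 2 ^ R ^ 14 + ⌈2 * D * L ^ 2⌉₊ : ℕ) : ℝ) ≤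
      Real.exp (22 * (R : ℝ) ^ 27 + (2 + 16 * D) + L / 2) := by
  have h1 : (1 : ℝ) ≤ R := by exact_mod_cast hR
  have h2 : (R : ℝ) ≤ (R : ℝ) ^ 27 := le_self_pow₀ h1 (by norm_num)
  have h3 : (R : ℝ) ^ 14 ≤ (R : ℝ) ^ 27 := pow_le_pow_right₀ h1 (by norm_num)
  have h4 : (R : ℝ) ^ 20 * 2 ^ R ^ 14 ≤ Real.exp (22 * (R : ℝ) ^ 27) := by
    refine (mul_le_mul (asym_pow (by linarith) 20) (asym_pow (by norm_num) _) (by positivity)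
      (by positivity)).trans ?_
    rw [← Real.exp_add, Real.exp_le_exp]
    push_cast
    linarith
  have h5 : (1 : ℝ) ≤ (R : ℝ) ^ 20 * 2 ^ R ^ 14 :=
    one_le_mul_of_one_le_of_one_le (one_le_pow₀ h1) (one_le_pow₀ one_le_two)
  have h6 : (⌈2 * D * L ^ 2⌉₊ : ℝ) ≤ 2 * D * L ^ 2 + 1 := (Nat.ceil_lt_add_one (by positivity)).le
  have h7 := Real.quadratic_le_exp_of_nonneg (show 0 ≤ L / 2 by linarith)
  have h8 : 2 + 2 * D * L ^ 2 ≤ (2 + 16 * D) * Real.exp (L / 2) := by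
    have a1 : 1 ≤ Real.exp (L / 2) := by nlinarith
    have a2 : L ^ 2 ≤ 8 * Real.exp (L / 2) := by nlinarith
    nlinarith [mul_le_mul_of_nonneg_left a2 hD]
  have h9 := h8.trans (mul_le_mul_of_nonneg_right (asym_exp _) (Real.exp_pos _).le)
  push_cast
  rw [add_assoc, Real.exp_add, Real.exp_add]
  refine le_trans ?_ (mul_le_mul h4 h9 (by positivity) (by positivity))
  generalize (R : ℝ) ^ 20 * 2 ^ R ^ 14 = X at h5 ⊢
  have h10 : 0 ≤ 2 * D * L ^ 2 + 1 := by positivity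
  nlinarith [mul_le_mul_of_nonneg_right h5 h10]

theorem asym (a : ℕ) (ha3 : 3 ≤ a) (C : ℝ) : ∃ K : ℝ, ∀ m p : ℕ,
    (∀ R r Z : ℕ, 10 ^ 7 * (a + 4) ^ 4 ≤ R → 60 * a ^ 3 * (r + 1) ≤ R →
      R ^ 20 * 2 ^ R ^ 14 ≤ Z → Real.exp (C * Real.log (p + 2) ^ 2) ≤ 2 ^ Z →
      p ≤ 4 * a ^ 2 * (m + 1) * ((4 * a) ^ (m / (r + 1) + R ^ 27) * Z)) →
    Real.log p ≤ K * ((m : ℝ) + 1) ^ (27 / 28 : ℝ) := by
  obtain ⟨B, hB⟩ : ∃ B : ℕ, B = 10 ^ 7 * (a + 4) ^ 4 + 60 * a ^ 3 := ⟨_, rfl⟩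
  obtain ⟨c, hc⟩ : ∃ c : ℝ, c = (2 * (B : ℝ)) ^ 27 := ⟨_, rfl⟩
  have hc0 : 0 ≤ c := by rw [hc]; positivity
  have hC := abs_nonneg C
  have ha : (0 : ℝ) ≤ a := Nat.cast_nonneg a
  obtain ⟨K, hK⟩ : ∃ K : ℝ, K = 4 * a ^ 2 + 28 + (1 + c) * (4 * a) + 22 * c + (2 + 16 * |C|) :=
    ⟨_, rfl⟩
  have hK0 : 0 ≤ K := by rw [hK]; positivity
  refine ⟨2 * K + 2, fun m p h => ?_⟩
  have hm0 : (1 : ℝ) ≤ (m : ℝ) + 1 := by linarith [Nat.cast_nonneg (α := ℝ) m]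
  obtain ⟨μ, hμ1, hμ2, hμ3⟩ : ∃ μ : ℝ, 1 ≤ μ ∧ μ ^ 28 = m + 1 ∧
      ((m : ℝ) + 1) ^ (27 / 28 : ℝ) = μ ^ 27 := by
    refine ⟨((m : ℝ) + 1) ^ ((28 : ℕ) : ℝ)⁻¹, Real.one_le_rpow hm0 (by positivity),
      Real.rpow_inv_natCast_pow (by linarith) (by norm_num), ?_⟩
    rw [← Real.rpow_natCast, ← Real.rpow_mul (by linarith)]
    norm_num
  rw [hμ3]
  have hT : 1 ≤ μ ^ 27 := one_le_pow₀ hμ1
  have hμT : μ ≤ μ ^ 27 := le_self_pow₀ hμ1 (by norm_num)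
  rcases Nat.eq_zero_or_pos p with rfl | hp
  · rw [Nat.cast_zero, Real.log_zero]
    positivity
  have hp1 : (1 : ℝ) ≤ p := by exact_mod_cast hp
  obtain ⟨r, hr⟩ : ∃ r : ℕ, ⌈μ⌉₊ = r + 1 :=
    ⟨⌈μ⌉₊ - 1, (Nat.sub_add_cancel (Nat.ceil_pos.2 (by linarith))).symm⟩
  have hr1 : μ ≤ (r + 1 : ℕ) := hr ▸ Nat.le_ceil μ
  have hr2 : ((r + 1 : ℕ) : ℝ) ≤ 2 * μ := by
    have := Nat.ceil_lt_add_one (show 0 ≤ μ by linarith)
    rw [hr] at this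
    linarith
  obtain ⟨L, hL⟩ : ∃ L, L = Real.log (p + 2) := ⟨_, rfl⟩
  have hL0 : 0 ≤ L := hL ▸ Real.log_nonneg (by linarith)
  have hL1 : L ≤ Real.log p + 2 := by
    have h1 : Real.log (p + 2) ≤ Real.log (p * 3) := Real.log_le_log (by linarith) (by linarith)
    rw [Real.log_mul (by linarith) (by norm_num)] at h1
    linarith [Real.log_le_sub_one_of_pos (show (0 : ℝ) < 3 by norm_num)]
  rw [← hL] at h
  obtain ⟨R, hR⟩ : ∃ R : ℕ, R = B * (r + 1) := ⟨_, rfl⟩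
  have hR1 : 10 ^ 7 * (a + 4) ^ 4 ≤ R := by
    rw [hR, hB]
    exact (Nat.le_add_right _ _).trans (Nat.le_mul_of_pos_right _ r.succ_pos)
  have hR2 : (R : ℝ) ^ 27 ≤ c * μ ^ 27 := by
    rw [hc, ← mul_pow, hR, Nat.cast_mul]
    refine pow_le_pow_left₀ (by positivity) ?_ 27
    nlinarith [mul_le_mul_of_nonneg_left hr2 (Nat.cast_nonneg (α := ℝ) B)]
  have hZ := asym_Z (R := R) (le_trans (Nat.succ_le_of_lt (by positivity)) hR1) hC hL0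
  have hZ2 : 2 * |C| * L ^ 2 ≤ ((R ^ 20 * 2 ^ R ^ 14 + ⌈2 * |C| * L ^ 2⌉₊ : ℕ) : ℝ) :=
    (Nat.le_ceil _).trans (Nat.cast_le.2 (Nat.le_add_left _ _))
  have hZ3 := Nat.le_add_right (R ^ 20 * 2 ^ R ^ 14) ⌈2 * |C| * L ^ 2⌉₊
  generalize R ^ 20 * 2 ^ R ^ 14 + ⌈2 * |C| * L ^ 2⌉₊ = Z at hZ hZ2 hZ3
  have h1 := h R r Z hR1 (by rw [hR, hB]; exact Nat.mul_le_mul_right _ (Nat.le_add_left _ _)) hZ3
    (by
      rw [← Real.exp_log (show (0 : ℝ) < 2 by norm_num), ← Real.exp_nat_mul, Real.exp_le_exp]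
      have a1 := mul_le_mul_of_nonneg_right (le_abs_self C) (sq_nonneg L)
      have a2 := mul_le_mul_of_nonneg_left (show 1 / 2 ≤ Real.log 2 by
        linarith [Real.log_two_gt_d9]) (Nat.cast_nonneg (α := ℝ) Z)
      linarith)
  have h2 : ((m / (r + 1) : ℕ) : ℝ) ≤ μ ^ 27 := by
    refine Nat.cast_div_le.trans ?_
    rw [div_le_iff₀ (by linarith)]
    have a1 := mul_le_mul_of_nonneg_left hr1 (show 0 ≤ μ ^ 27 by linarith)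
    rw [← pow_succ, hμ2] at a1
    linarith
  have h3 : ((m / (r + 1) + R ^ 27 : ℕ) : ℝ) ≤ (1 + c) * μ ^ 27 := by
    rw [Nat.cast_add, Nat.cast_pow]
    linarith
  generalize m / (r + 1) + R ^ 27 = n at h1 h3
  have h4 : (p : ℝ) ≤ 4 * a ^ 2 * μ ^ 28 * ((4 * a) ^ n * Z) := by
    rw [hμ2]
    exact_mod_cast h1
  have h5 := h4.trans (mul_le_mul
    (mul_le_mul (asym_exp _) (asym_pow (by linarith) 28) (by positivity) (by positivity))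
    (mul_le_mul (asym_pow (by positivity) n) hZ (by positivity) (by positivity))
    (by positivity) (by positivity))
  rw [← Real.exp_add, ← Real.exp_add, ← Real.exp_add, ← Real.log_le_iff_le_exp (by linarith)] at h5
  have b1 := mul_le_mul_of_nonneg_left hT (show (0 : ℝ) ≤ 4 * a ^ 2 by positivity)
  have b2 := mul_le_mul_of_nonneg_left hT (show (0 : ℝ) ≤ 2 + 16 * |C| by positivity)
  have b3 := mul_le_mul_of_nonneg_right h3 (show (0 : ℝ) ≤ 4 * a by positivity)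
  rw [hK]
  push_cast at h5
  generalize μ ^ 27 = T at *
  linarith

end Pool.Agent.Lib.MP_dee342_nt.Ar
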