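import Mathlib

/-! Counting functions of an exponent sequence. -/

namespace Pool.Agent.Lib.MP_dee342_nt.Ar

open Finset

/-- The number of halvings in the first `n` steps. -/
def bb (e : ℕ → ℕ) (n : ℕ) : ℕ := ∑ i ∈ range n, e i

/-- The number of ends of ascending runs among the first `n` steps. -/
def JJ (a : ℕ) (e : ℕ → ℕ) (n : ℕ) : ℕ := #{i ∈ range n | 2 ^ e i < a ∧ e (i + 1) ≠ e i}

/-- The number of other ascending steps among the first `n` steps. -/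
def II (a : ℕ) (e : ℕ → ℕ) (n : ℕ) : ℕ := #{i ∈ range n | 2 ^ e i < a ∧ e (i + 1) = e i}

/-- The arithmetic data of one window of size `N`, with large coefficients. -/
def BlkW (a R n N : ℕ) : Prop :=
  ∃ (α β E : Fin (n + 1) → ℕ) (B G : ℕ) (s : Fin (n + 1) → ℤ) (W : ℝ),
    (∀ j, α j ≤ N) ∧ B ≤ N ∧ β 0 = 0 ∧ (∀ j, β j + E j ≤ N) ∧ ∑ j, E j + G ≤ B ∧ N ≤ R * G ∧
    1 ≤ W ∧ W ≤ Real.exp (N / (16 * (R : ℝ) ^ 3)) ∧ (∀ j, |(s j : ℝ)| ≤ W * 2 ^ E j) ∧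
    (2 : ℤ) ^ B ∣ ∑ j, s j * (a ^ α j * 2 ^ β j) ∧ s 0 ≠ 0 ∧
    ∀ j, j ≠ 0 → 2 ^ G * |s j * ((a : ℤ) ^ α j * 2 ^ β j)| ≤ |s 0 * ((a : ℤ) ^ α 0 * 2 ^ β 0)|

theorem bb_succ (e : ℕ → ℕ) (n : ℕ) : bb e (n + 1) = bb e n + e n := sum_range_succ _ _

theorem bb_mono (e : ℕ → ℕ) : Monotone (bb e) :=
  monotone_nat_of_le_succ fun n => by rw [bb_succ]; omega

theorem JJ_succ (a : ℕ) (e : ℕ → ℕ) (n : ℕ) :
    JJ a e (n + 1) = JJ a e n + if 2 ^ e n < a ∧ e (n + 1) ≠ e n then 1 else 0 := by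
  simp only [JJ, card_filter, sum_range_succ]

theorem II_succ (a : ℕ) (e : ℕ → ℕ) (n : ℕ) :
    II a e (n + 1) = II a e n + if 2 ^ e n < a ∧ e (n + 1) = e n then 1 else 0 := by
  simp only [II, card_filter, sum_range_succ]

theorem JJ_mono (a : ℕ) (e : ℕ → ℕ) : Monotone (JJ a e) :=
  monotone_nat_of_le_succ fun n => by rw [JJ_succ]; omega

theorem bb_add (e : ℕ → ℕ) (s n : ℕ) : bb e (s + n) = bb e s + bb (fun i => e (s + i)) n :=
  sum_range_add _ _ _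

theorem JJ_add (a : ℕ) (e : ℕ → ℕ) (s n : ℕ) :
    JJ a e (s + n) = JJ a e s + JJ a (fun i => e (s + i)) n := by
  simp only [JJ, card_filter, sum_range_add, add_assoc]

theorem le_bb {e : ℕ → ℕ} (he : ∀ i, 1 ≤ e i) (n : ℕ) : n ≤ bb e n := by
  induction n with
  | zero => exact Nat.zero_le _
  | succ n ih => rw [bb_succ]; have := he n; omega

theorem two_pow_ne {a : ℕ} (ha : Odd a) {k : ℕ} (hk : 1 ≤ k) : 2 ^ k ≠ a := fun h =>
  (Nat.not_even_iff_odd.2 ha) (h ▸ (Nat.even_pow' (by omega)).2 even_two)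

end Pool.Agent.Lib.MP_dee342_nt.Ar
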