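import Pool.Agent.Lib.MP_dee342_nt.Ar.Defs
import Pool.Agent.Lib.MP_dee342_nt.Ar.Seq

/-! The odd points of a `T_a`-orbit. -/

namespace Pool.Agent.Lib.MP_dee342_nt.Ar

open Finset Function Pool.Agent.Lib.MP_dee342_nt

theorem br_even (a z : ℤ) : T a (2 * z) = z := by
  simp [T]

theorem br_odd (a : ℤ) {y : ℤ} (hy : Odd y) : T a y = (a * y + 1) / 2 := by
  have h := Int.odd_iff.1 hy
  simp [T, h]

theorem syr_step {a : ℕ} (ha : Odd a) (ha3 : 3 ≤ a) {y : ℤ} (hy : Odd y) :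
    Odd (syr a y) ∧ 1 ≤ syrE a y ∧ 2 ^ syrE a y * syr a y = a * y + 1 ∧
      (T a)^[syrE a y] y = syr a y ∧
      ∀ j, 1 ≤ j → j ≤ syrE a y → (T a)^[j] y = 2 ^ (syrE a y - j) * syr a y := by
  have hne : (a : ℤ) * y + 1 ≠ 0 := by
    intro h
    have h1 : (a : ℤ) ∣ 1 := ⟨-y, by linarith⟩
    have h2 := Int.le_of_dvd one_pos h1
    omega
  have hev : (2 : ℤ) ∣ (a : ℤ) * y + 1 :=
    even_iff_two_dvd.1 ((((Int.odd_coe_nat a).2 ha).mul hy).add_one)
  have hiff : ∀ n : ℕ, (2 : ℤ) ^ n ∣ (a : ℤ) * y + 1 ↔ n ≤ syrE a y := by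
    intro n
    have h1 := padicValInt_dvd_iff (p := 2) n ((a : ℤ) * y + 1)
    rw [Nat.cast_ofNat] at h1
    rw [h1, syrE]
    simp [hne]
  have h1 : 1 ≤ syrE a y := (hiff 1).1 (by simpa using hev)
  have h2 : 2 ^ syrE a y * syr a y = a * y + 1 := Int.mul_ediv_cancel' ((hiff _).2 le_rfl)
  have h3 : Odd (syr a y) := by
    rw [← Int.not_even_iff_odd]
    rintro ⟨c, hc⟩
    have h4 := (hiff (syrE a y + 1)).1 ⟨c, by rw [← h2, hc]; ring⟩
    omega
  have h5 : ∀ j, 1 ≤ j → j ≤ syrE a y → (T a)^[j] y = 2 ^ (syrE a y - j) * syr a y := by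
    intro j hj
    induction j, hj using Nat.le_induction with
    | base =>
      intro _
      obtain ⟨k, hk⟩ : ∃ k, syrE a y = k + 1 := ⟨syrE a y - 1, by omega⟩
      rw [iterate_one, br_odd _ hy, ← h2, hk, Nat.add_sub_cancel, pow_succ', mul_assoc,
        Int.mul_ediv_cancel_left _ two_ne_zero]
    | succ j hj ih =>
      intro hle
      obtain ⟨k, hk⟩ : ∃ k, syrE a y - j = k + 1 := ⟨syrE a y - j - 1, by omega⟩
      have hk' : syrE a y - (j + 1) = k := by omega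
      rw [iterate_succ_apply', ih (by omega), hk, hk', pow_succ', mul_assoc, br_even]
  refine ⟨h3, h1, h2, ?_, h5⟩
  rw [h5 _ h1 le_rfl, Nat.sub_self, pow_zero, one_mul]

theorem syr_iter {a : ℕ} (ha : Odd a) (ha3 : 3 ≤ a) {y : ℤ} (hy : Odd y) (n : ℕ) :
    Odd ((syr a)^[n] y) ∧ (T a)^[bb (fun i => syrE a ((syr a)^[i] y)) n] y = (syr a)^[n] y := by
  induction n with
  | zero => exact ⟨hy, rfl⟩
  | succ n ih =>
    have h := syr_step ha ha3 ih.1
    rw [iterate_succ_apply', bb_succ, add_comm, iterate_add_apply, ih.2]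
    exact ⟨h.1, h.2.2.2.1⟩

theorem syr_le {a : ℕ} (ha : Odd a) (ha3 : 3 ≤ a) {y : ℤ} (hy : Odd y) (t : ℕ) :
    ∃ i, |(syr a)^[i] y| ≤ |(T a)^[t] y| := by
  induction t using Nat.strong_induction_on generalizing y with
  | _ t ih =>
    obtain ⟨h1, h2, -, h4, h5⟩ := syr_step ha ha3 hy
    rcases Nat.eq_zero_or_pos t with rfl | ht
    · exact ⟨0, le_rfl⟩
    by_cases hle : t ≤ syrE a y
    · refine ⟨1, ?_⟩
      rw [iterate_one, h5 t ht hle, abs_mul, abs_pow, abs_two]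
      exact le_mul_of_one_le_left (abs_nonneg _) (one_le_pow₀ one_le_two)
    · obtain ⟨i, hi⟩ := ih (t - syrE a y) (by omega) h1
      refine ⟨i + 1, ?_⟩
      have h6 : t = (t - syrE a y) + syrE a y := by omega
      rw [iterate_succ_apply, h6, iterate_add_apply, h4]
      exact hi

end Pool.Agent.Lib.MP_dee342_nt.Ar
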