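import Pool.Agent.Lib.MP_dee342_nt.Defs

/-! The map from an odd integer to the next odd integer of its `T_a`-orbit. -/

set_option autoImplicit false

namespace Pool.Agent.Lib.MP_dee342_nt

/-- The exponent of `2` in `a y + 1`. -/
def syrE (a y : ℤ) : ℕ := padicValInt 2 (a * y + 1)

/-- The odd part of `a y + 1`. -/
def syr (a y : ℤ) : ℤ := (a * y + 1) / 2 ^ syrE a y

end Pool.Agent.Lib.MP_dee342_nt
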