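import Pool.Agent.Lib.MP_dee342_nt.QHt

/-! A ratio of adjacent minors of large height, with weights and a dominant coordinate. -/

namespace Pool.Agent.Lib.MP_dee342_nt.Ar

open Finset Matrix Pool.Agent.Lib.MP_dee342_nt.Q

theorem sum_dt_zero {n : ℕ} (X : Matrix (Fin n) (Fin n) ℤ) (s : Fin n → ℤ) (k : ℕ)
    (g : Fin n → ℚ) (hg : ∀ u : Fin n, k ≤ (u : ℕ) → g u = 0)
    (hs : ∀ j, (s j : ℚ) = ∑ u, g u * X u j) (f : Fin n → Fin n) (u : Fin n) (hu : k ≤ (u : ℕ)) :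
    ∑ j, s j * dt X k (Function.update f u j) = 0 := by
  have e : ∑ j, s j * dt X k (Function.update f u j) = ((qgap_M X k f).updateRow u s).det := by
    rw [← qgap_expand]
    exact sum_congr rfl fun j _ => by rw [qgap_update X f hu fun _ _ => Iff.rfl, qgap_dt]
  have e2 : ((qgap_M X k f).updateRow u s).map (Int.cast : ℤ → ℚ) =
      ((qgap_M X k f).map (Int.cast : ℤ → ℚ)).updateRow u
        (∑ w, g w • ((qgap_M X k f).map (Int.cast : ℤ → ℚ)) w) := by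
    rw [map_updateRow]
    congr 1
    ext j
    rw [Function.comp_apply, hs, Finset.sum_apply]
    refine sum_congr rfl fun w _ => ?_
    by_cases hw : k ≤ (w : ℕ)
    · simp [hg w hw]
    · simp [qgap_M, hw]
  rw [e, ← Int.cast_inj (α := ℚ), Int.cast_det, e2, det_updateRow_sum, hg u hu, zero_smul,
    Int.cast_zero]

theorem exists_htW {n : ℕ} {a : ℕ} (ha : Odd a) (X : Matrix (Fin (n + 1)) (Fin (n + 1)) ℤ)
    (hX : X.det ≠ 0) (α β E : Fin (n + 1) → ℕ) (B G k : ℕ) (hβ0 : β 0 = 0)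
    (hE : ∑ v, E v + G ≤ B)
    (hdvd : ∀ u, (2 : ℤ) ^ B ∣ (fun v => (a : ℤ) ^ α v * 2 ^ β v) ⬝ᵥ X u)
    (Λ : Fin (n + 1) → ℝ)
    (hb : ∀ u v : Fin (n + 1), (u : ℕ) < k → |(X u v : ℝ)| ≤ 2 ^ E v * Λ u)
    (s : Fin (n + 1) → ℤ) (g : Fin (n + 1) → ℚ) (hg : ∀ u : Fin (n + 1), k ≤ (u : ℕ) → g u = 0)
    (hs : ∀ j, (s j : ℚ) = ∑ u, g u * X u j) (hs0 : s 0 ≠ 0)
    (hdom : ∀ j, j ≠ 0 →
      2 ^ G * |s j * ((a : ℤ) ^ α j * 2 ^ β j)| ≤ |s 0 * ((a : ℤ) ^ α 0 * 2 ^ β 0)|)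
    {H : ℝ} (hH : 1 ≤ H) (hbig : ((n + 1).factorial : ℝ) *
      ∏ u ∈ univ.filter (fun u : Fin (n + 1) => (u : ℕ) < k), Λ u < 2 ^ G)
    (hbig2 : (n + 1) * H < 2 ^ G)
    (x : Matrix (Fin (n + 1)) (Fin (n + 1)) ℤ) (hx : ∀ u v, x u v = X u v * (a ^ α v * 2 ^ β v)) :
    ∃ (f : Fin (n + 1) → Fin (n + 1)) (l j : Fin (n + 1)), k ≤ (l : ℕ) ∧ dt x k f ≠ 0 ∧
      1 < |(dt x k (Function.update f l j) : ℚ) / dt x k f| ∧
      H < |(((dt x k (Function.update f l j) : ℚ) / dt x k f).num : ℝ)| := by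
  set τ : Fin (n + 1) → ℤ := fun v => (a : ℤ) ^ α v * 2 ^ β v with hτ
  set S : Finset (Fin (n + 1)) := univ.filter fun u : Fin (n + 1) => k ≤ (u : ℕ) with hS
  set P : ℝ := ∏ u ∈ univ.filter (fun u : Fin (n + 1) => (u : ℕ) < k), Λ u with hP
  have hmemS : ∀ u, u ∈ S ↔ k ≤ (u : ℕ) := fun u => by simp [hS]
  have ha0 : (a : ℤ) ≠ 0 := Nat.cast_ne_zero.2 ha.pos.ne'
  have hτ0 : ∀ v, τ v ≠ 0 := fun v => mul_ne_zero (pow_ne_zero _ ha0) (pow_ne_zero _ two_ne_zero)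
  have hcop : ∀ b c : ℕ, IsCoprime ((2 : ℤ) ^ b) ((a : ℤ) ^ c) := fun b c => by
    have h2 : IsCoprime ((2 : ℕ) : ℤ) (a : ℤ) :=
      Nat.isCoprime_iff_coprime.2 (Nat.coprime_two_left.2 ha)
    exact_mod_cast h2.pow
  have hle : ∀ f : Fin (n + 1) → Fin (n + 1), |(dt X k f : ℝ)| * ∏ u ∈ S, (2 : ℝ) ^ E (f u) ≤
      (n + 1).factorial * P * 2 ^ (∑ v, E v) := by
    intro f
    have := dt_le X k f (fun v => (2 : ℝ) ^ E v) Λ (fun v => by positivity) hb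
    rwa [prod_pow_eq_pow_sum univ] at this
  have hxe : x = Matrix.of fun u v => X u v * τ v := by
    ext u v
    exact hx u v
  have hT : ∏ v, τ v ≠ 0 := prod_ne_zero_iff.2 fun v _ => hτ0 v
  have hsc : ∀ f, dt x k f * ∏ u ∈ S, τ (f u) = dt X k f * ∏ v, τ v := fun f => by
    rw [hxe]
    exact dt_scale X τ k f
  by_cases hcase : ∃ f, dt X k f ≠ 0 ∧ ∃ u₀ ∈ S, f u₀ = 0
  swap
  · exfalso
    obtain ⟨f, hf⟩ := exists_dt_ne X hX k
    have h1 := dvd_cramer X τ _ hdvd k f 0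
    rw [sum_eq_zero, sub_zero] at h1
    · have h2 : (2 : ℤ) ^ B ∣ dt X k f := by
        refine (hcop B (α 0)).dvd_of_dvd_mul_right ?_
        simpa [hτ, hβ0] using h1
      have h3 : ((2 : ℤ) ^ B : ℤ) ≤ |dt X k f| :=
        Int.le_of_dvd (abs_pos.2 hf) ((dvd_abs _ _).2 h2)
      have h4 : (2 : ℝ) ^ B ≤ |(dt X k f : ℝ)| := by exact_mod_cast h3
      have h5 : |(dt X k f : ℝ)| ≤ (n + 1).factorial * P * 2 ^ (∑ v, E v) :=
        (le_mul_of_one_le_right (abs_nonneg _)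
          (one_le_prod fun u _ => one_le_pow₀ one_le_two)).trans (hle f)
      have h7 : (2 : ℝ) ^ G * 2 ^ (∑ v, E v) ≤ 2 ^ B := by
        rw [← pow_add]
        exact pow_le_pow_right₀ one_le_two (by omega)
      have h8 : ((n + 1).factorial : ℝ) * P * 2 ^ (∑ v, E v) < 2 ^ G * 2 ^ (∑ v, E v) := by gcongr
      linarith
    · intro u hu
      have : dt X k (Function.update f u 0) = 0 := by
        by_contra hne'
        exact hcase ⟨_, hne', u, hu, Function.update_self ..⟩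
      rw [this, zero_mul]
  obtain ⟨f, hf, u, hu, hf0⟩ := hcase
  have hdx : dt x k f ≠ 0 := fun h0 => by
    have := hsc f
    rw [h0, zero_mul] at this
    exact mul_ne_zero hf hT this.symm
  have hdq : (dt x k f : ℚ) ≠ 0 := Int.cast_ne_zero.2 hdx
  set r : Fin (n + 1) → ℚ := fun j => (dt x k (Function.update f u j) : ℚ) / dt x k f with hr
  have hz : ∑ j, ((s j * τ j : ℤ) : ℚ) * r j = 0 := by
    have h1 := sum_dt_zero x (fun j => s j * τ j) k g hg (fun j => by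
      rw [Int.cast_mul, hs j, sum_mul]
      refine sum_congr rfl fun w _ => ?_
      rw [hx w j]
      simp only [hτ]
      push_cast
      ring) f u ((hmemS u).1 hu)
    have h2 : ∑ j, ((s j * τ j : ℤ) : ℚ) * r j =
        ((∑ j, s j * τ j * dt x k (Function.update f u j) : ℤ) : ℚ) / dt x k f := by
      rw [Int.cast_sum, sum_div]
      refine sum_congr rfl fun j _ => ?_
      simp only [hr]
      push_cast
      ring
    rw [h2, h1, Int.cast_zero, zero_div]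
  have hr0 : r 0 = 1 := by
    simp only [hr]
    rw [← hf0, Function.update_eq_self, div_self hdq]
  obtain ⟨j, hj⟩ : ∃ j, H < |(r j : ℝ)| := by
    by_contra hcon
    push Not at hcon
    have h0 : (0 : ℝ) < |((s 0 * τ 0 : ℤ) : ℝ)| := abs_pos.2 (Int.cast_ne_zero.2 (mul_ne_zero hs0 (hτ0 0)))
    have h1 : ((s 0 * τ 0 : ℤ) : ℝ) = -∑ j : Fin n, ((s j.succ * τ j.succ : ℤ) : ℝ) * (r j.succ : ℝ) := by
      rw [Fin.sum_univ_succ, hr0, mul_one] at hz
      have h2 := congrArg (Rat.cast : ℚ → ℝ) hz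
      push_cast at h2 ⊢
      linarith
    have h2 : (2 : ℝ) ^ G * |((s 0 * τ 0 : ℤ) : ℝ)| ≤ n * (|((s 0 * τ 0 : ℤ) : ℝ)| * H) := by
      conv_lhs => rw [h1, abs_neg]
      refine (mul_le_mul_of_nonneg_left (abs_sum_le_sum_abs _ _) (by positivity)).trans ?_
      rw [mul_sum]
      refine (sum_le_sum (g := fun _ => |((s 0 * τ 0 : ℤ) : ℝ)| * H) fun j _ => ?_).trans (by simp)
      rw [abs_mul, ← mul_assoc]
      refine mul_le_mul ?_ (hcon _) (abs_nonneg _) h0.le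
      exact_mod_cast hdom j.succ (Fin.succ_ne_zero j)
    nlinarith
  have h1 : (1 : ℝ) < |(r j : ℝ)| := hH.trans_lt hj
  have h1' : 1 < |r j| := by exact_mod_cast h1
  refine ⟨f, u, j, (hmemS u).1 hu, hdx, h1', hj.trans_le ?_⟩
  have h2 : ((r j).num : ℝ) = (r j : ℝ) * (r j).den := by
    exact_mod_cast (Rat.mul_den_eq_num (r j)).symm
  have h3 : (1 : ℝ) ≤ (r j).den := by exact_mod_cast (r j).den_pos
  change _ ≤ |((r j).num : ℝ)|
  rw [h2, abs_mul, Nat.abs_cast]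
  exact le_mul_of_one_le_right (abs_nonneg _) h3

end Pool.Agent.Lib.MP_dee342_nt.Ar
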