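import Mathlib

/-! A rank argument. -/

namespace Pool.Agent.Lib.MP_dee342_nt.Ar

open Finset

/-- If the vectors `md * e v` are all rational combinations of the rows `l < i` of `X`, we have a
contradiction. -/
theorem not_all_low {n : ℕ} (X : Matrix (Fin n) (Fin n) ℤ) (i : Fin n) {md : ℤ} (hmd : md ≠ 0)
    (h : ∀ v : Fin n, ∃ g : Fin n → ℚ, (∀ l, i ≤ l → g l = 0) ∧
      ∀ j, (((Pi.single v md : Fin n → ℤ) j : ℤ) : ℚ) = ∑ l, g l * X l j) : False := by
  choose g h0 h1 using h
  have h2 : Matrix.of g * X.map (Int.cast : ℤ → ℚ) = (md : ℚ) • (1 : Matrix (Fin n) (Fin n) ℚ) := by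
    ext v j
    rw [Matrix.mul_apply, Matrix.smul_apply, Matrix.one_apply]
    refine (h1 v j).symm.trans ?_
    rw [Pi.single_apply]
    by_cases e : v = j
    · simp [e]
    · simp [e, Ne.symm e]
  have h3 := congrArg Matrix.det h2
  rw [Matrix.det_mul, Matrix.det_eq_zero_of_column_eq_zero (A := Matrix.of g) i
    fun v => h0 v i le_rfl, zero_mul, Matrix.det_smul, Matrix.det_one, mul_one] at h3
  exact pow_ne_zero _ (Int.cast_ne_zero.2 hmd) h3.symm

end Pool.Agent.Lib.MP_dee342_nt.Ar
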