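import Pool.Agent.Lib.MP_dee342_nt.QFrame
import Pool.Agent.Lib.MP_dee342_nt.Ar.Ht
import Pool.Agent.Lib.MP_dee342_nt.Ar.Seq
import Pool.Agent.Lib.MP_dee342_nt.Ar.Low

/-! From a weighted window to a frame. -/

namespace Pool.Agent.Lib.MP_dee342_nt.Ar

open Finset Matrix Pool.Agent.Lib.MP_dee342_nt.Q

theorem exists_frameW {a R n N : ℕ} (ha : Odd a) (hR : 10 ≤ R) (hn : n + 1 ≤ R)
    (hN : R ^ 20 ≤ N) (h : BlkW a R n N) : Nonempty (Frame a R n N) := by
  obtain ⟨α, β, E, B, G, s, W, hα, hB, hβ0, hβ, hE, hG, hW1, hW, hs, hdv, hs0, hdom⟩ := h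
  set τ : Fin (n + 1) → ℤ := fun v => (a : ℤ) ^ α v * 2 ^ β v with hτ
  set A : Fin (n + 1) → ℝ := fun v => 2 ^ E v with hA
  have ha0 : 0 < a := ha.pos
  have hA1 : ∀ v, 1 ≤ A v := fun v => one_le_pow₀ (by norm_num)
  have hA0 : ∀ v, 0 < A v := fun v => lt_of_lt_of_le one_pos (hA1 v)
  have hτ1 : ∀ v, (1 : ℝ) ≤ τ v := by
    intro v
    have h1 : (1 : ℝ) ≤ a := by exact_mod_cast ha0
    simp only [hτ]
    push_cast
    exact one_le_mul_of_one_le_of_one_le (one_le_pow₀ h1) (one_le_pow₀ (by norm_num))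
  have hτ0 : ∀ v, (0 : ℝ) < τ v := fun v => lt_of_lt_of_le one_pos (hτ1 v)
  obtain ⟨X, lam, π, hdet, hdvd, hpos, hmono, hbd, hprod, hlast⟩ :=
    minima (n + 1) (by omega) A hA0 τ (2 ^ B) (by positivity)
  push_cast at hdvd hbd hprod hlast
  have hRr : (10 : ℝ) ≤ R := by exact_mod_cast hR
  have hNr : (R : ℝ) ^ 20 ≤ N := by exact_mod_cast hN
  have hnr : (n : ℝ) + 1 ≤ R := by exact_mod_cast hn
  obtain ⟨n1, n2, n3, n4, n5, n6, n7, n8, n9⟩ :=
    frame_num hRr hNr (m := (n : ℝ) + 1) (by linarith [Nat.cast_nonneg (α := ℝ) n]) hnr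
  set c : ℝ := 4 * ((n : ℝ) + 1) ^ 2 with hc
  set g : ℝ := N / (8 * (R : ℝ) ^ 3) with hg
  have hc0 : 0 ≤ c := by positivity
  have hg0 : 0 ≤ g := by positivity
  have hgW : (N : ℝ) / (16 * (R : ℝ) ^ 3) = g / 2 := by rw [hg]; ring
  have hC1 : 1 ≤ Real.exp c := Real.one_le_exp hc0
  have hprodA : ∏ v, A v = 2 ^ ∑ v, E v := prod_pow_eq_pow_sum univ E 2
  have hsA : ∀ l, |(s l : ℝ)| ≤ A l * W := fun l => (hs l).trans_eq (mul_comm _ _)
  have hsdv : (2 : ℤ) ^ B ∣ τ ⬝ᵥ s := by
    rw [dotProduct_comm]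
    exact hdv
  have hbd' : ∀ u v, |(X u v : ℝ)| ≤ Real.exp c * A v * min (lam u) (lam (π.symm v)) := by
    intro u v
    simpa using hbd u (π.symm v)
  have hbd1 : ∀ u v, |(X u v : ℝ)| ≤ A v * (Real.exp c * lam u) := by
    intro u v
    refine (hbd' u v).trans ?_
    calc _ ≤ Real.exp c * A v * lam u :=
          mul_le_mul_of_nonneg_left (min_le_left _ _) (mul_pos (Real.exp_pos c) (hA0 v)).le
      _ = _ := by ring
  -- step (1)
  have s1 : lam 0 ≤ W := by
    by_contra hc'
    obtain ⟨g', hg', hs'⟩ := hlast s hsdv 0 fun l =>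
      (hsA l).trans_lt (mul_lt_mul_of_pos_left (not_le.mp hc') (hA0 l))
    have h1 : (s 0 : ℚ) = 0 := by
      rw [hs' 0]
      exact Finset.sum_eq_zero fun l _ => by rw [hg' l (Fin.zero_le l), zero_mul]
    exact hs0 (by exact_mod_cast h1)
  -- step (2)
  have h2N : ∀ k ≤ N, (2 : ℝ) ^ k ≤ Real.exp N := by
    intro k hk
    calc (2 : ℝ) ^ k ≤ 2 ^ N := pow_le_pow_right₀ (by norm_num) hk
      _ ≤ Real.exp 1 ^ N :=
          pow_le_pow_left₀ (by norm_num) (by linarith [Real.add_one_le_exp (1 : ℝ)]) N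
      _ = _ := by rw [← Real.exp_nat_mul, mul_one]
  have s2 : 1 ≤ Real.exp (N + c) * lam 0 := by
    obtain ⟨v, hX⟩ : ∃ v, X 0 v ≠ 0 := by
      by_contra h1
      push Not at h1
      exact hdet (Matrix.det_eq_zero_of_row_eq_zero 0 h1)
    have h1 : (1 : ℝ) ≤ |(X 0 v : ℝ)| := by exact_mod_cast Int.one_le_abs hX
    refine h1.trans ((hbd1 0 v).trans ?_)
    rw [Real.exp_add, mul_assoc]
    exact mul_le_mul_of_nonneg_right (h2N _ (by have := hβ v; omega))
      (mul_pos (Real.exp_pos c) (hpos 0)).le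
  have hG2 := exp_le_two_pow (by omega : 0 < R) hG
  have hfac : (((n + 1).factorial : ℕ) : ℝ) ≤ Real.exp ((R : ℝ) ^ 2) :=
    factorial_le_exp (by push_cast; exact hnr)
  have hCn : Real.exp c ^ (n + 1) ≤ Real.exp (4 * (R : ℝ) ^ 3) := by
    rw [← Real.exp_nat_mul]
    refine Real.exp_le_exp.mpr ?_
    push_cast
    exact n2
  have hlam0 : 0 < ∏ u, lam u := Finset.prod_pos fun u _ => hpos u
  -- step (3)
  have s3 : Real.exp (((n : ℝ) + 1) ^ 2 * g) < ∏ u, lam u := by
    have h1 := dvd_cramer X τ (2 ^ B) hdvd (n + 1) id 0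
    have h2 : univ.filter (fun u : Fin (n + 1) => n + 1 ≤ (u : ℕ)) = ∅ := by
      refine Finset.filter_eq_empty_iff.mpr fun u _ => not_le.mpr u.2
    have h2' : univ.filter (fun u : Fin (n + 1) => (u : ℕ) < n + 1) = univ :=
      Finset.filter_true_of_mem fun u _ => u.2
    rw [h2, sum_empty, sub_zero, dt_top] at h1
    simp only [hτ, hβ0, pow_zero, mul_one] at h1
    have h5 := Int.le_of_dvd (abs_pos.mpr hdet) ((dvd_abs _ _).mpr (two_pow_dvd_of_odd ha h1))
    have h6 : (2 : ℝ) ^ B ≤ |(X.det : ℝ)| := by exact_mod_cast h5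
    have h7 := dt_le X (n + 1) id A (fun u => Real.exp c * lam u) hA0 fun u v _ => hbd1 u v
    rw [h2, h2', prod_empty, mul_one, dt_top, hprodA, prod_mul_distrib, prod_const, card_univ,
      Fintype.card_fin] at h7
    have h8 : (2 : ℝ) ^ G * 2 ^ (∑ v, E v) ≤ 2 ^ B := by
      rw [← pow_add]
      exact pow_le_pow_right₀ (by norm_num) (by omega)
    have h9 : (2 : ℝ) ^ G ≤ (((n + 1).factorial : ℕ) : ℝ) *
        (Real.exp c ^ (n + 1) * ∏ u, lam u) :=
      le_of_mul_le_mul_right (h8.trans (h6.trans h7)) (by positivity)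
    have h10 : (((n + 1).factorial : ℕ) : ℝ) * (Real.exp c ^ (n + 1) * ∏ u, lam u) ≤
        Real.exp ((R : ℝ) ^ 2) * (Real.exp (4 * (R : ℝ) ^ 3) * ∏ u, lam u) := by gcongr
    by_contra h11
    have h12 : Real.exp ((R : ℝ) ^ 2) * (Real.exp (4 * (R : ℝ) ^ 3) * ∏ u, lam u) ≤
        Real.exp ((R : ℝ) ^ 2) * (Real.exp (4 * (R : ℝ) ^ 3) *
          Real.exp (((n : ℝ) + 1) ^ 2 * g)) := by
      gcongr
      exact not_lt.mp h11
    have h13 := hG2.trans (h9.trans (h10.trans h12))
    rw [← Real.exp_add, ← Real.exp_add, Real.exp_le_exp] at h13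
    have h14 : (0 : ℝ) < (R : ℝ) ^ 3 := by positivity
    linarith
  -- step (4)
  have hWg : W ≤ Real.exp (g / 2) := hgW ▸ hW
  obtain ⟨k₀, hk1', hk2'⟩ := exists_gap (fun u => max (lam u) W)
    (fun u => lt_max_of_lt_left (hpos u)) hg0
    (max_le s1 le_rfl |>.trans (hWg.trans (Real.exp_le_exp.mpr (by linarith))))
    (s3.trans_le (Finset.prod_le_prod (fun u _ => (hpos u).le) fun u _ => le_max_left _ _))
  have hk2 : ∀ u, u ≤ k₀.castSucc → lam u ≤ Real.exp ((n + 1) * g) := fun u hu =>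
    (le_max_left _ _).trans (hk2' u hu)
  have hWk : W < lam k₀.succ := by
    have h1 : 1 < Real.exp g := Real.one_lt_exp_iff.2 (by rw [hgW] at n7; linarith)
    have h2 : W < Real.exp g * W := lt_mul_of_one_lt_left (by linarith) h1
    have h3 : Real.exp g * W ≤ max (lam k₀.succ) W :=
      (mul_le_mul_of_nonneg_left (le_max_right _ _) (Real.exp_pos g).le).trans hk1'
    exact (lt_max_iff.1 (h2.trans_le h3)).resolve_right (lt_irrefl W)
  have hk1 : Real.exp g * lam k₀.castSucc ≤ lam k₀.succ := by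
    have h1 := (mul_le_mul_of_nonneg_left (le_max_left _ _) (Real.exp_pos g).le).trans hk1'
    rwa [max_eq_left hWk.le] at h1
  obtain ⟨g', hg', hs'⟩ := hlast s hsdv k₀.succ fun l =>
    (hsA l).trans_lt (mul_lt_mul_of_pos_left hWk (hA0 l))
  have hlow : ∀ u : Fin (n + 1), (u : ℕ) < k₀ + 1 → u ≤ k₀.castSucc := by
    intro u hu
    rw [Fin.le_def, Fin.val_castSucc]
    omega
  have hup : ∀ u : Fin (n + 1), (k₀ : ℕ) + 1 ≤ (u : ℕ) → k₀.succ ≤ u := by
    intro u hu
    rw [Fin.le_def, Fin.val_succ]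
    exact hu
  have hbig : ((n : ℝ) + 2) * Real.exp (N / (8 * (R : ℝ) ^ 2)) ^ (n + 1) *
      ((((n + 1).factorial : ℕ) : ℝ) * ∏ u ∈ univ.filter
        (fun u : Fin (n + 1) => (u : ℕ) < k₀ + 1), Real.exp c * lam u) < 2 ^ G := by
    have h1 : (n : ℝ) + 2 ≤ Real.exp R := by linarith [Real.add_one_le_exp (R : ℝ)]
    have h2 : Real.exp (N / (8 * (R : ℝ) ^ 2)) ^ (n + 1) ≤ Real.exp (N / R / 8) := by
      rw [← Real.exp_nat_mul]
      refine Real.exp_le_exp.mpr ?_
      push_cast
      exact n5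
    have h3 : (1 : ℝ) ≤ Real.exp c * Real.exp (((n : ℝ) + 1) * g) :=
      one_le_mul_of_one_le_of_one_le hC1 (Real.one_le_exp (by positivity))
    have h4 : ∏ u ∈ univ.filter (fun u : Fin (n + 1) => (u : ℕ) < k₀ + 1), Real.exp c * lam u ≤
        (Real.exp c * Real.exp (((n : ℝ) + 1) * g)) ^ (n + 1) := by
      refine (Finset.prod_le_prod (g := fun _ => Real.exp c * Real.exp (((n : ℝ) + 1) * g))
        (fun u _ => (mul_pos (Real.exp_pos c) (hpos u)).le) fun u hu => ?_).trans ?_
      · exact mul_le_mul_of_nonneg_left (hk2 u (hlow u (mem_filter.mp hu).2)) (Real.exp_pos c).le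
      · rw [prod_const]
        refine pow_le_pow_right₀ h3 ?_
        exact (card_filter_le _ _).trans (by simp)
    have h5 : (Real.exp c * Real.exp (((n : ℝ) + 1) * g)) ^ (n + 1) ≤
        Real.exp (4 * (R : ℝ) ^ 3) * Real.exp (N / R / 8) := by
      rw [mul_pow]
      refine mul_le_mul hCn ?_ (by positivity) (by positivity)
      rw [← Real.exp_nat_mul]
      refine Real.exp_le_exp.mpr ?_
      push_cast
      rw [← mul_assoc, ← sq]
      exact n4
    have h6 : (0 : ℝ) ≤ ∏ u ∈ univ.filter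
        (fun u : Fin (n + 1) => (u : ℕ) < k₀ + 1), Real.exp c * lam u :=
      Finset.prod_nonneg fun u _ => (mul_pos (Real.exp_pos c) (hpos u)).le
    refine lt_of_lt_of_le ?_ hG2
    calc _ ≤ Real.exp R * Real.exp (N / R / 8) * (Real.exp ((R : ℝ) ^ 2) *
          (Real.exp (4 * (R : ℝ) ^ 3) * Real.exp (N / R / 8))) := by
          gcongr
          exact h4.trans h5
      _ < _ := by
          rw [← Real.exp_add, ← Real.exp_add, ← Real.exp_add, ← Real.exp_add, Real.exp_lt_exp]
          have h14 : (0 : ℝ) < (R : ℝ) ^ 3 := by positivity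
          linarith
  set x : Matrix (Fin (n + 1)) (Fin (n + 1)) ℤ := Matrix.of fun u v => X u v * τ v with hx
  have hH1 : (1 : ℝ) ≤ Real.exp (N / (8 * (R : ℝ) ^ 2)) := Real.one_le_exp (by positivity)
  have hbig1 : (((n + 1).factorial : ℕ) : ℝ) * ∏ u ∈ univ.filter
      (fun u : Fin (n + 1) => (u : ℕ) < k₀ + 1), Real.exp c * lam u < 2 ^ G := by
    refine lt_of_le_of_lt (le_mul_of_one_le_left (mul_nonneg (Nat.cast_nonneg _)
      (Finset.prod_nonneg fun u _ => (mul_pos (Real.exp_pos c) (hpos u)).le)) ?_) hbig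
    exact one_le_mul_of_one_le_of_one_le (by linarith [Nat.cast_nonneg (α := ℝ) n])
      (one_le_pow₀ hH1)
  have hbig2 : ((n : ℝ) + 1) * Real.exp (N / (8 * (R : ℝ) ^ 2)) < 2 ^ G := by
    have h1 : (n : ℝ) + 1 ≤ Real.exp R := by linarith [Real.add_one_le_exp (R : ℝ)]
    have h2 : (N : ℝ) / (8 * (R : ℝ) ^ 2) ≤ N / R / 8 :=
      (le_mul_of_one_le_left (by positivity) (by linarith [Nat.cast_nonneg (α := ℝ) n])).trans n5
    refine lt_of_lt_of_le ?_ hG2
    refine (mul_le_mul_of_nonneg_right h1 (Real.exp_pos _).le).trans_lt ?_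
    rw [← Real.exp_add, Real.exp_lt_exp]
    have h14 : (0 : ℝ) < (R : ℝ) ^ 3 := by positivity
    linarith
  obtain ⟨f, l, j, hkl, hdt, h1lt, hht⟩ := exists_htW ha X hdet α β E B G (k₀ + 1) hβ0 hE hdvd
    (fun u => Real.exp c * lam u) (fun u v _ => hbd1 u v) s g' (fun u hu => hg' u (hup u hu)) hs'
    hs0 hdom hH1 hbig1 hbig2 x (fun u v => rfl)
  set w : Fin (n + 1) → ℝ := fun v => Real.log (τ v * A v * lam (π.symm v)) with hw
  have hw0 : ∀ v, 0 < τ v * A v * lam (π.symm v) := fun v =>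
    mul_pos (mul_pos (hτ0 v) (hA0 v)) (hpos _)
  have hxabs : ∀ u v, |(x u v : ℝ)| = |(X u v : ℝ)| * τ v := by
    intro u v
    simp only [hx, Matrix.of_apply, Int.cast_mul, abs_mul, abs_of_pos (hτ0 v)]
  have hlo : ∀ u, Real.exp (-(N + c)) ≤ lam u := by
    intro u
    refine le_trans ?_ (hmono (Fin.zero_le u))
    rw [Real.exp_neg, inv_le_iff_one_le_mul₀' (Real.exp_pos _)]
    exact s2
  have hhi : ∀ u, lam u ≤ Real.exp (4 * (R : ℝ) ^ 3 + N) := by
    intro u
    have h1 : lam u ≤ 2 ^ B := by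
      by_contra h1
      refine not_all_low X u (md := 2 ^ B) (by positivity) fun v => hlast _ ?_ u fun l => ?_
      · rw [dotProduct_single]
        exact Dvd.intro_left _ rfl
      · refine lt_of_lt_of_le (lt_of_le_of_lt ?_ (not_le.1 h1))
          (le_mul_of_one_le_left (hpos u).le (hA1 l))
        by_cases hl : l = v
        · subst hl
          simp
        · rw [Pi.single_eq_of_ne hl]
          simp
    exact h1.trans ((h2N B hB).trans (Real.exp_le_exp.mpr (by linarith [pow_nonneg (Nat.cast_nonneg (α := ℝ) R) 3])))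
  have hτA : ∀ v, τ v * A v ≤ Real.exp (a * N + N) := by
    intro v
    have h1 : (a : ℝ) ^ α v ≤ Real.exp (a * N) := by
      calc (a : ℝ) ^ α v ≤ (a : ℝ) ^ N :=
            pow_le_pow_right₀ (by exact_mod_cast ha0) (hα v)
        _ ≤ Real.exp a ^ N :=
            pow_le_pow_left₀ (by positivity) (by linarith [Real.add_one_le_exp (a : ℝ)]) N
        _ = _ := by rw [← Real.exp_nat_mul, mul_comm]
    have h2 : (2 : ℝ) ^ β v * A v ≤ Real.exp N := by
      simp only [hA]
      rw [← pow_add]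
      exact h2N _ (hβ v)
    simp only [hτ]
    push_cast
    rw [Real.exp_add, mul_assoc]
    exact mul_le_mul h1 h2 (mul_pos (by positivity) (hA0 v)).le (Real.exp_pos _).le
  have hR3 : (0 : ℝ) < (R : ℝ) ^ 3 := by positivity
  refine ⟨{
    x := x
    y := fun p => if p then Matrix.of fun u v => if v = 0 then ∑ v', x u v' else x u v else x
    e := fun p v => if p then (if v = 0 then B else β v) else α v
    w := w
    π := π
    k := k₀ + 1
    f := f
    l := l
    j := j
    det_ne := ?_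
    y_eq := ?_
    y_dvd := ?_
    e_le := ?_
    w_le := ?_
    bd := ?_
    bd' := ?_
    sum_le := ?_
    kl := hkl
    dt_ne := hdt
    one_lt := h1lt
    ht := ?_ }⟩
  · have h1 : x = Matrix.of fun u v => τ v * X u v := by
      ext u v
      simp only [hx, Matrix.of_apply, mul_comm]
    rw [h1, Matrix.det_mul_row]
    refine mul_ne_zero (Finset.prod_ne_zero_iff.mpr fun v _ => ?_) hdet
    have := hτ0 v
    intro h0
    rw [h0] at this
    simp at this
  · intro p
    ext i u
    cases p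
    · simp [Um, Matrix.mul_apply]
    · rw [Matrix.mul_apply, Fin.sum_univ_succ]
      refine Fin.cases ?_ (fun i => ?_) i
      · simp [Um, Fin.sum_univ_succ, (Fin.succ_ne_zero _).symm]
      · simp [Um, (Fin.succ_ne_zero _)]
  · intro p u v
    cases p
    · simp only [bs, hx, hτ, Bool.false_eq_true, if_false, Matrix.of_apply]
      exact Dvd.dvd.mul_left (Dvd.intro _ rfl) _
    · by_cases hv : v = 0
      · subst hv
        simp only [bs, hx, if_true, Matrix.of_apply, Nat.cast_ofNat]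
        have := hdvd u
        rwa [dotProduct_comm] at this
      · simp only [bs, hx, hτ, if_true, if_neg hv, Matrix.of_apply, Nat.cast_ofNat]
        exact Dvd.dvd.mul_left (Dvd.intro_left _ rfl) _
  · intro p v
    cases p
    · simpa using hα v
    · by_cases hv : v = 0
      · simpa [hv] using hB
      · have := hβ v
        simp only [if_true, if_neg hv]
        omega
  · intro v
    have ha' : (0 : ℝ) ≤ a := Nat.cast_nonneg a
    have hN' : (0 : ℝ) ≤ N := Nat.cast_nonneg N
    have haN : (0 : ℝ) ≤ a * N := by positivity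
    rw [abs_le]
    constructor
    · have h1 : Real.exp (-(N + c)) ≤ τ v * A v * lam (π.symm v) :=
        (hlo (π.symm v)).trans (le_mul_of_one_le_left (hpos _).le
          (one_le_mul_of_one_le_of_one_le (hτ1 v) (hA1 v)))
      have h2 := (Real.le_log_iff_exp_le (hw0 v)).mpr h1
      simp only [hw]
      linarith
    · have h1 : τ v * A v * lam (π.symm v) ≤
          Real.exp (a * N + N) * Real.exp (4 * (R : ℝ) ^ 3 + N) :=
        mul_le_mul (hτA v) (hhi _) (hpos _).le (Real.exp_pos _).le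
      rw [← Real.exp_add] at h1
      have h2 := (Real.log_le_iff_le_exp (hw0 v)).mpr h1
      simp only [hw]
      linarith
  · intro u v
    rw [hxabs, Real.exp_add, hw, Real.exp_log (hw0 v)]
    calc |(X u v : ℝ)| * τ v ≤ Real.exp c * A v * lam (π.symm v) * τ v := by
          refine mul_le_mul_of_nonneg_right ((hbd' u v).trans ?_) (hτ0 v).le
          exact mul_le_mul_of_nonneg_left (min_le_right _ _)
            (mul_pos (Real.exp_pos c) (hA0 v)).le
      _ = Real.exp c * (τ v * A v * lam (π.symm v)) := by ring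
      _ ≤ _ := mul_le_mul_of_nonneg_right (Real.exp_le_exp.mpr n1) (hw0 v).le
  · intro u v hu hv
    rw [hxabs, Real.exp_sub, Real.exp_add, hw, Real.exp_log (hw0 (π v)), Equiv.symm_apply_apply,
      le_div_iff₀ (Real.exp_pos _)]
    have h1 : Real.exp g * lam u ≤ lam v :=
      (mul_le_mul_of_nonneg_left (hmono (hlow u hu)) (Real.exp_pos g).le).trans
        (hk1.trans (hmono (hup v hv)))
    have h2 : 0 < τ (π v) * A (π v) := mul_pos (hτ0 _) (hA0 _)
    calc |(X u (π v) : ℝ)| * τ (π v) * Real.exp g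
        ≤ A (π v) * (Real.exp c * lam u) * τ (π v) * Real.exp g :=
          mul_le_mul_of_nonneg_right (mul_le_mul_of_nonneg_right (hbd1 u _) (hτ0 _).le)
            (Real.exp_pos g).le
      _ = Real.exp c * (τ (π v) * A (π v) * (Real.exp g * lam u)) := by ring
      _ ≤ Real.exp c * (τ (π v) * A (π v) * lam v) :=
          mul_le_mul_of_nonneg_left (mul_le_mul_of_nonneg_left h1 h2.le) (Real.exp_pos c).le
      _ ≤ _ := mul_le_mul_of_nonneg_right (Real.exp_le_exp.mpr n1) (mul_pos h2 (hpos v)).le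
  · have h1 : ∀ v, w v = (α v * Real.log a + β v * Real.log 2) +
        (Real.log (A v) + Real.log (lam (π.symm v))) := by
      intro v
      have ha' : (a : ℝ) ≠ 0 := by positivity
      simp only [hw, hτ]
      push_cast
      rw [Real.log_mul (mul_pos (by positivity) (hA0 v)).ne' (hpos _).ne',
        Real.log_mul (by positivity) (hA0 v).ne', Real.log_mul (by positivity) (by positivity),
        Real.log_pow, Real.log_pow]
      ring
    have h2 : ∑ v, (Real.log (A v) + Real.log (lam (π.symm v))) ≤ c + B * Real.log 2 := by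
      rw [sum_add_distrib, Equiv.sum_comp π.symm fun v => Real.log (lam v),
        ← Real.log_prod fun v _ => (hA0 v).ne', ← Real.log_prod fun v _ => (hpos v).ne',
        ← Real.log_mul (Finset.prod_pos fun v _ => hA0 v).ne' hlam0.ne', mul_comm]
      refine (Real.log_le_log (mul_pos hlam0 (Finset.prod_pos fun v _ => hA0 v)) hprod).trans ?_
      rw [Real.log_mul (Real.exp_pos c).ne' (by positivity), Real.log_exp, Real.log_pow]
    have h3 : ∑ v : Fin (n + 1), (((if v = 0 then B else β v : ℕ)) : ℝ) =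
        B + ∑ v, (β v : ℝ) := by
      rw [Fin.sum_univ_succ, Fin.sum_univ_succ, hβ0]
      simp
    simp only [if_true, Bool.false_eq_true, if_false]
    rw [Finset.sum_congr rfl fun v _ => h1 v, sum_add_distrib, sum_add_distrib, ← sum_mul,
      ← sum_mul, h3]
    linarith
  · exact (Real.le_log_iff_exp_le (lt_trans (Real.exp_pos _) hht)).mpr hht.le


end Pool.Agent.Lib.MP_dee342_nt.Ar
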