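import Pool.Agent.Lib.MP_dee342_nt.Ar.Len0

/-! The length of a segment with few ends of runs. -/

namespace Pool.Agent.Lib.MP_dee342_nt.Ar

open Finset

theorem len_block {a : ℕ} (ha : Odd a) (ha3 : 3 ≤ a) {L k : ℕ} (y : ℕ → ℤ) (e : ℕ → ℕ)
    (he : ∀ i, 1 ≤ e i) (h : ∀ i, 2 ^ e i * y (i + 1) = a * y i + 1)
    (hL : ∀ i ≤ k, 2 ≤ |y i| ∧ |y i| ≤ 2 ^ L)
    (hn : ∀ i, i + 1 < k → ¬ (2 ^ e i < a ∧ e (i + 1) ≠ e i)) : bb e k ≤ 4 * a ^ 2 * L := by
  have hL1 : 1 ≤ L := by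
    rcases Nat.eq_zero_or_pos L with rfl | h0
    · have := hL 0 (Nat.zero_le _)
      omega
    · exact h0
  have hsum : (2 * a ^ 2 + 3 * a + 2) * L + (L + a + 1) ≤ 4 * a ^ 2 * L := by
    have h1 : a + 1 ≤ (a + 1) * L := Nat.le_mul_of_pos_right _ hL1
    have h2 : (2 * a ^ 2 + 4 * a + 4) * L ≤ 4 * a ^ 2 * L :=
      Nat.mul_le_mul_right _ (by nlinarith)
    have h3 : (2 * a ^ 2 + 4 * a + 4) * L = (2 * a ^ 2 + 3 * a + 2) * L + L + (a + 1) * L := by
      ring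
    omega
  have hdesc : ∀ d ≤ k, (∀ i < d, ¬ 2 ^ e i < a) → bb e d ≤ (2 * a ^ 2 + 3 * a + 2) * L :=
    fun d hd hi => len_desc y e h
      (fun i hid => lt_of_le_of_ne (not_lt.1 (hi i hid)) (two_pow_ne ha (he i)).symm)
      (fun i hid => (hL i (hid.trans hd)).1) (hL 0 (Nat.zero_le _)).2
  by_cases hex : ∃ d, d < k ∧ 2 ^ e d < a
  · obtain ⟨hd, hr⟩ := Nat.find_spec hex
    have hmin := fun i => Nat.find_min hex (m := i)
    generalize Nat.find hex = d at hd hr hmin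
    obtain ⟨m, rfl⟩ := Nat.exists_eq_add_of_le hd.le
    have h1 := hdesc d hd.le fun i hi hr' => hmin i hi ⟨hi.trans hd, hr'⟩
    have h2 : ∀ i < m, e (d + i) = e d := by
      intro i
      induction i with
      | zero => exact fun _ => rfl
      | succ i ih =>
        intro hi
        have h3 := ih (by omega)
        by_contra h4
        exact hn (d + i) (by omega) ⟨h3 ▸ hr, fun h5 => h4 (h5.trans h3)⟩
    have h3 := len_rise ha (fun i => y (d + i)) (fun i => e (d + i)) (fun i => h (d + i)) hr h2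
      (hL d hd.le).1 (hL d hd.le).2
    rw [bb_add]
    omega
  · have h1 := hdesc k le_rfl fun i hi hr => hex ⟨i, hi, hr⟩
    omega

theorem length {a : ℕ} (ha : Odd a) (ha3 : 3 ≤ a) (L n : ℕ) (y : ℕ → ℤ) (e : ℕ → ℕ)
    (he : ∀ i, 1 ≤ e i) (h : ∀ i, 2 ^ e i * y (i + 1) = a * y i + 1)
    (hL : ∀ i ≤ n, 2 ≤ |y i| ∧ |y i| ≤ 2 ^ L) : bb e n ≤ 4 * a ^ 2 * (JJ a e n + 1) * L := by
  induction n using Nat.strong_induction_on generalizing y e with
  | _ n ih =>
    by_cases hex : ∃ t, t < n ∧ 2 ^ e t < a ∧ e (t + 1) ≠ e t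
    · obtain ⟨ht, hr⟩ := Nat.find_spec hex
      have hmin := fun i => Nat.find_min hex (m := i)
      generalize Nat.find hex = t at ht hr hmin
      obtain ⟨m, rfl⟩ := Nat.exists_eq_add_of_le (Nat.succ_le_of_lt ht)
      have h1 := len_block ha ha3 (k := t + 1) y e he h (fun i hi => hL i (by omega))
        fun i hi h2 => hmin i (by omega) ⟨by omega, h2⟩
      have h2 := ih m (by omega) (fun i => y (t + 1 + i)) (fun i => e (t + 1 + i))
        (fun i => he _) (fun i => h (t + 1 + i)) fun i hi => hL _ (by omega)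
      have h3 : 1 ≤ JJ a e (t + 1) := by
        rw [JJ_succ, if_pos hr]
        omega
      rw [Nat.succ_eq_add_one, bb_add, JJ_add]
      generalize JJ a (fun i => e (t + 1 + i)) m = J at h2 ⊢
      calc _ ≤ 4 * a ^ 2 * L + 4 * a ^ 2 * (J + 1) * L := Nat.add_le_add h1 h2
        _ = 4 * a ^ 2 * (1 + J + 1) * L := by ring
        _ ≤ _ := Nat.mul_le_mul_right _ (Nat.mul_le_mul_left _ (by omega))
    · refine (len_block ha ha3 y e he h hL fun i hi h2 => hex ⟨i, by omega, h2⟩).trans ?_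
      exact Nat.mul_le_mul_right _ (Nat.le_mul_of_pos_right _ (Nat.succ_pos _))

end Pool.Agent.Lib.MP_dee342_nt.Ar
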