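import Pool.Agent.Lib.MP_dee342_nt.Ar.Seq

/-! The length of one run. -/

namespace Pool.Agent.Lib.MP_dee342_nt.Ar

open Finset

theorem len_rise {a : ℕ} (ha : Odd a) (y : ℕ → ℤ) (e : ℕ → ℕ)
    (h : ∀ i, 2 ^ e i * y (i + 1) = a * y i + 1) {L k f : ℕ} (hf : 2 ^ f < a)
    (he : ∀ i < k, e i = f) (h2 : 2 ≤ |y 0|) (hL : |y 0| ≤ 2 ^ L) : bb e k ≤ L + a + 1 := by
  have h1 : ∀ j ≤ k, (2 : ℤ) ^ bb e j * ((a - 2 ^ f) * y j + 1) =
      a ^ j * ((a - 2 ^ f) * y 0 + 1) := fun j hj => by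
    induction j with
    | zero => simp [bb]
    | succ j ih =>
      have h3 := h j
      rw [he j hj] at h3
      rw [bb_succ, he j hj, pow_add, pow_succ]
      linear_combination a * ih (Nat.le_of_succ_le hj) + 2 ^ bb e j * (a - 2 ^ f) * h3
  have hf' : (2 : ℤ) ^ f < a := by exact_mod_cast hf
  have hp : (0 : ℤ) < 2 ^ f := by positivity
  have hc : IsCoprime ((2 : ℤ) ^ bb e k) ((a : ℤ) ^ k) :=
    (Nat.isCoprime_iff_coprime.2 (Nat.coprime_two_left.2 ha)).pow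
  have hd : (2 : ℤ) ^ bb e k ∣ (a - 2 ^ f) * y 0 + 1 :=
    hc.dvd_of_dvd_mul_left ⟨_, (h1 k le_rfl).symm⟩
  have h0 : (a - 2 ^ f) * y 0 + 1 ≠ 0 := fun h0 => by
    rcases le_abs'.1 h2 with h3 | h3 <;> nlinarith
  have h3 : |(a - 2 ^ f) * y 0 + 1| ≤ 2 ^ (L + a + 1) := by
    have h4 : (a : ℤ) < 2 ^ a := by exact_mod_cast Nat.lt_two_pow_self
    have h5 : (1 : ℤ) ≤ 2 ^ L := one_le_pow₀ one_le_two
    refine (abs_add_le _ _).trans ?_
    rw [abs_mul, abs_of_pos (sub_pos.2 hf'), abs_one, pow_succ, pow_add]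
    nlinarith [abs_nonneg (y 0)]
  exact (pow_le_pow_iff_right₀ one_lt_two).1
    ((Int.le_of_dvd (abs_pos.2 h0) ((dvd_abs _ _).2 hd)).trans h3)

theorem l0_bern (n : ℕ) : 2 * ((n : ℤ) + 1) ^ (n + 1) ≤ (n + 1 + 1) ^ (n + 1) := by
  have h0 : (0 : ℚ) < n + 1 := by positivity
  have h1 := one_add_mul_le_pow (a := 1 / ((n : ℚ) + 1))
    (le_trans (by norm_num) (one_div_pos.2 h0).le) (n + 1)
  rw [Nat.cast_succ, mul_one_div_cancel h0.ne', one_add_div h0.ne', div_pow,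
    le_div_iff₀ (by positivity), one_add_one_eq_two] at h1
  exact_mod_cast h1

theorem len_desc {a : ℕ} (y : ℕ → ℤ) (e : ℕ → ℕ)
    (h : ∀ i, 2 ^ e i * y (i + 1) = a * y i + 1) {L k : ℕ} (he : ∀ i < k, a < 2 ^ e i)
    (h2 : ∀ i ≤ k, 2 ≤ |y i|) (hL : |y 0| ≤ 2 ^ L) : bb e k ≤ (2 * a ^ 2 + 3 * a + 2) * L := by
  have h1 : ∀ j ≤ k, (2 : ℤ) ^ j * 2 ^ bb e j * |y j| ≤ (2 * a + 1) ^ j * |y 0| ∧
      ((a : ℤ) + 1) ^ j ≤ 2 ^ bb e j := fun j hj => by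
    induction j with
    | zero => simp [bb]
    | succ j ih =>
      obtain ⟨i1, i2⟩ := ih (Nat.le_of_succ_le hj)
      have h3 : 2 * (2 ^ e j * |y (j + 1)|) ≤ (2 * a + 1) * |y j| := by
        have h4 := abs_add_le (a * y j) 1
        rw [← h j, abs_mul, abs_mul, abs_one, abs_pow, abs_two, Nat.abs_cast] at h4
        linarith [h2 j (Nat.le_of_succ_le hj)]
      have h4 : (a : ℤ) + 1 ≤ 2 ^ e j := by exact_mod_cast he j hj
      rw [bb_succ, pow_add _ (bb e j), pow_succ, pow_succ, pow_succ]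
      refine ⟨?_, mul_le_mul i2 h4 (by positivity) (by positivity)⟩
      calc _ = (2 : ℤ) ^ j * 2 ^ bb e j * (2 * (2 ^ e j * |y (j + 1)|)) := by ring
        _ ≤ 2 ^ j * 2 ^ bb e j * ((2 * a + 1) * |y j|) := by gcongr
        _ = (2 * a + 1) * (2 ^ j * 2 ^ bb e j * |y j|) := by ring
        _ ≤ (2 * a + 1) * ((2 * a + 1) ^ j * |y 0|) := by gcongr
        _ = _ := by ring
  obtain ⟨i1, i2⟩ := h1 k le_rfl
  have h3 : (2 : ℤ) ^ k * 2 ^ bb e k * 2 ≤ (2 * a + 1) ^ k * 2 ^ L :=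
    le_trans (by gcongr; exact h2 k le_rfl) (i1.trans (by gcongr))
  have hk : k ≤ (2 * a + 1) * L := by
    by_contra hk
    obtain ⟨t, rfl⟩ := Nat.exists_eq_add_of_le (not_le.1 hk).le
    have h4 : 2 * (2 * (a : ℤ) + 1) ^ (2 * a + 1) ≤ (2 * a + 1 + 1) ^ (2 * a + 1) := by
      have h5 := l0_bern (2 * a)
      push_cast at h5
      exact h5
    have h5 : (2 : ℤ) ^ L * (2 * a + 1) ^ ((2 * a + 1) * L + t) ≤
        (2 * a + 1 + 1) ^ ((2 * a + 1) * L + t) := by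
      rw [pow_add, pow_add, pow_mul, pow_mul, ← mul_assoc, ← mul_pow]
      gcongr
      linarith
    have h6 : (2 * (a : ℤ) + 1 + 1) ^ ((2 * a + 1) * L + t) ≤
        2 ^ ((2 * a + 1) * L + t) * 2 ^ bb e ((2 * a + 1) * L + t) := by
      rw [show 2 * (a : ℤ) + 1 + 1 = 2 * (a + 1) by ring, mul_pow]
      gcongr
    have h7 : (0 : ℤ) < 2 ^ L * (2 * a + 1) ^ ((2 * a + 1) * L + t) := by positivity
    linarith
  have h4 : (2 : ℤ) ^ k * 2 ^ bb e k ≤ 2 ^ k * 2 ^ (a * k + L) := by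
    have h5 : (a : ℤ) + 1 ≤ 2 ^ a := by exact_mod_cast Nat.lt_two_pow_self
    have h6 : (2 * (a : ℤ) + 1) ^ k ≤ (2 * 2 ^ a) ^ k := by
      gcongr
      linarith
    have h7 : (0 : ℤ) < 2 ^ k * 2 ^ bb e k := by positivity
    rw [pow_add, pow_mul, ← mul_assoc, ← mul_pow]
    exact le_trans (by linarith) (h3.trans (by gcongr))
  have h5 := (pow_le_pow_iff_right₀ one_lt_two).1 (le_of_mul_le_mul_left h4 (by positivity))
  nlinarith [Nat.mul_le_mul_left a hk]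

end Pool.Agent.Lib.MP_dee342_nt.Ar
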