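import Pool.Agent.Lib.MP_dee342_nt.Ar.Seq

/-! The telescoped relation with one term for each free block. -/

namespace Pool.Agent.Lib.MP_dee342_nt.Ar

open Finset

theorem rep1_aux {a : ℕ} (e : ℕ → ℕ) (he : ∀ i, 1 ≤ e i) (D c : ℕ → ℤ)
    (K : ℤ) (hD : ∀ i, 2 ^ e i * D (i + 1) = a * D i + c i)
    (hc0 : ∀ i, 2 ^ e i < a → e (i + 1) = e i → c i = 0) (hc : ∀ i, |c i| ≤ K * 2 ^ e i) (n : ℕ) :
    ∃ (α β E : ℕ → ℕ) (s : ℕ → ℤ),
      2 ^ bb e n * D n = a ^ n * D 0 + ∑ j ∈ range (JJ a e n + 1), s j * (a ^ α j * 2 ^ β j) ∧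
      (∀ j ≤ JJ a e n, α j ≤ n ∧ β j + E j ≤ bb e (n - α j) ∧ |s j| ≤ n * K * 2 ^ E j) ∧
      ∑ j ∈ range (JJ a e n + 1), E j + II a e n ≤ bb e n ∧
      (¬ 2 ^ e n < a → α (JJ a e n) = 0 ∧ β (JJ a e n) + E (JJ a e n) = bb e n) := by
  have hK : 0 ≤ K := nonneg_of_mul_nonneg_left ((abs_nonneg _).trans (hc 0)) (by positivity)
  induction n with
  | zero =>
    exact ⟨fun _ => 0, fun _ => 0, fun _ => 0, fun _ => 0, by simp [bb], by simp,
      by simp [II], by simp [bb]⟩
  | succ n ih =>
    obtain ⟨α, β, E, s, h1, h2, h3, h4⟩ := ih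
    have hstep : 2 ^ bb e (n + 1) * D (n + 1) = (a : ℤ) ^ (n + 1) * D 0 +
        (∑ j ∈ range (JJ a e n + 1), s j * (a ^ (α j + 1) * 2 ^ β j) + 2 ^ bb e n * c n) := by
      have h5 : ∑ j ∈ range (JJ a e n + 1), s j * ((a : ℤ) ^ (α j + 1) * 2 ^ β j) =
          a * ∑ j ∈ range (JJ a e n + 1), s j * (a ^ α j * 2 ^ β j) := by
        rw [mul_sum]
        exact sum_congr rfl fun j _ => by ring
      rw [bb_succ, pow_add, mul_assoc, hD, h5]
      linear_combination (a : ℤ) * h1
    have hold : ∀ j ≤ JJ a e n, α j + 1 ≤ n + 1 ∧ β j + E j ≤ bb e (n + 1 - (α j + 1)) ∧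
        |s j| ≤ ((n + 1 : ℕ) : ℤ) * K * 2 ^ E j := fun j hj => by
      obtain ⟨e1, e2, e3⟩ := h2 j hj
      refine ⟨by omega, by rwa [Nat.add_sub_add_right], e3.trans ?_⟩
      have : (0 : ℤ) ≤ K * 2 ^ E j := by positivity
      push_cast
      linarith
    have hen := he n
    by_cases ha : 2 ^ e n < a
    · by_cases hb : e (n + 1) = e n
      · have hJ : JJ a e (n + 1) = JJ a e n := by rw [JJ_succ, if_neg fun h => h.2 hb, add_zero]
        have hI : II a e (n + 1) = II a e n + 1 := by rw [II_succ, if_pos ⟨ha, hb⟩]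
        rw [hJ, hI]
        refine ⟨fun j => α j + 1, β, E, s, ?_, hold, ?_, fun h => (h (hb ▸ ha)).elim⟩
        · rw [hstep, hc0 n ha hb, mul_zero, add_zero]
        · rw [bb_succ]
          omega
      · have hJ : JJ a e (n + 1) = JJ a e n + 1 := by rw [JJ_succ, if_pos ⟨ha, hb⟩]
        have hI : II a e (n + 1) = II a e n := by rw [II_succ, if_neg fun h => hb h.2, add_zero]
        rw [hJ, hI]
        have hr : ∀ j ∈ range (JJ a e n + 1), j ≠ JJ a e n + 1 := fun j hj => (mem_range.1 hj).ne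
        refine ⟨fun j => if j = JJ a e n + 1 then 0 else α j + 1,
          fun j => if j = JJ a e n + 1 then bb e n else β j,
          fun j => if j = JJ a e n + 1 then e n else E j,
          fun j => if j = JJ a e n + 1 then c n else s j, ?_, fun j hj => ?_, ?_, fun _ => ?_⟩
        · rw [hstep, sum_range_succ _ (JJ a e n + 1)]
          congr 2
          · exact sum_congr rfl fun j hj => by simp only [if_neg (hr j hj)]
          · simp only [if_true, pow_zero, one_mul, mul_comm]
        · by_cases h : j = JJ a e n + 1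
          · simp only [if_pos h]
            refine ⟨Nat.zero_le _, (bb_succ e n).ge, (hc n).trans ?_⟩
            have : (0 : ℤ) ≤ n * (K * 2 ^ e n) := by positivity
            push_cast
            linarith
          · simp only [if_neg h]
            exact hold j (by omega)
        · rw [sum_range_succ _ (JJ a e n + 1), sum_congr rfl fun j hj => if_neg (hr j hj),
            if_pos rfl, bb_succ, add_right_comm]
          exact Nat.add_le_add_right h3 _
        · simp only [if_true, bb_succ, and_self]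
    · have hJ : JJ a e (n + 1) = JJ a e n := by rw [JJ_succ, if_neg fun h => ha h.1, add_zero]
      have hI : II a e (n + 1) = II a e n := by rw [II_succ, if_neg fun h => ha h.1, add_zero]
      obtain ⟨h5, h6⟩ := h4 ha
      rw [hJ, hI]
      have hr : ∀ j ∈ range (JJ a e n), j ≠ JJ a e n := fun j hj => (mem_range.1 hj).ne
      refine ⟨fun j => if j = JJ a e n then 0 else α j + 1, β,
        fun j => if j = JJ a e n then E j + e n else E j,
        fun j => if j = JJ a e n then a * s j + 2 ^ E j * c n else s j, ?_, fun j hj => ?_, ?_,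
        fun _ => ?_⟩
      · rw [hstep, sum_range_succ, sum_range_succ, add_assoc]
        congr 2
        · exact sum_congr rfl fun j hj => by simp only [if_neg (hr j hj)]
        · simp only [if_true]
          rw [h5, ← h6]
          ring
      · by_cases h : j = JJ a e n
        · simp only [if_pos h]
          subst h
          refine ⟨Nat.zero_le _, by rw [Nat.sub_zero, bb_succ]; omega, ?_⟩
          have e3 := (h2 _ hj).2.2
          have e4 : (a : ℤ) ≤ 2 ^ e n := by exact_mod_cast not_lt.1 ha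
          have e5 := mul_le_mul e4 e3 (abs_nonneg _) (by positivity)
          have e6 := mul_le_mul_of_nonneg_left (hc n)
            (by positivity : (0 : ℤ) ≤ 2 ^ E (JJ a e n))
          refine (abs_add_le _ _).trans ?_
          rw [abs_mul, abs_mul, Nat.abs_cast, abs_of_nonneg (a := (2 : ℤ) ^ E (JJ a e n))
            (by positivity), pow_add]
          push_cast
          linarith
        · simp only [if_neg h]
          exact hold j hj
      · rw [sum_range_succ] at h3 ⊢
        rw [sum_congr rfl fun j hj => if_neg (hr j hj), if_pos rfl, bb_succ, ← add_assoc,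
          add_right_comm]
        exact Nat.add_le_add_right h3 _
      · simp only [if_true, bb_succ, true_and]
        omega

theorem rep1 {a : ℕ} (e : ℕ → ℕ) (he : ∀ i, 1 ≤ e i) (hne : ∀ i, 2 ^ e i ≠ a) (D c : ℕ → ℤ)
    (K : ℤ) (hD : ∀ i, 2 ^ e i * D (i + 1) = a * D i + c i)
    (hc0 : ∀ i, 2 ^ e i < a → e (i + 1) = e i → c i = 0) (hc : ∀ i, |c i| ≤ K * 2 ^ e i) (n : ℕ) :
    ∃ (α β E : ℕ → ℕ) (s : ℕ → ℤ),
      2 ^ bb e n * D n = a ^ n * D 0 + ∑ j ∈ range (JJ a e n + 1), s j * (a ^ α j * 2 ^ β j) ∧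
      (∀ j ≤ JJ a e n, α j ≤ n ∧ β j + E j ≤ bb e (n - α j) ∧ |s j| ≤ n * K * 2 ^ E j) ∧
      ∑ j ∈ range (JJ a e n + 1), E j + II a e n ≤ bb e n := by
  obtain ⟨α, β, E, s, h1, h2, h3, -⟩ := rep1_aux e he D c K hD hc0 hc n
  exact ⟨α, β, E, s, h1, h2, h3⟩

end Pool.Agent.Lib.MP_dee342_nt.Ar
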