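import Pool.Agent.Lib.MP_dee342_nt.Ar.Seq

/-! Sizes along an orbit segment. -/

namespace Pool.Agent.Lib.MP_dee342_nt.Ar

open Finset

theorem size1 {a : ℕ} (ha : 1 ≤ a) (y : ℕ → ℤ) (e : ℕ → ℕ)
    (h : ∀ i, 2 ^ e i * y (i + 1) = a * y i + 1) {n : ℕ} (hn : ∀ i < n, (n : ℤ) ≤ |y i|) :
    ∀ t ≤ n, 2 ^ bb e t * |y t| ≤ 3 * a ^ t * |y 0| := by
  have ha' : (1 : ℝ) ≤ a := by exact_mod_cast ha
  have key : ∀ t ≤ n, (2 : ℝ) ^ bb e t * |(y t : ℝ)| ≤
      Real.exp (t / n) * a ^ t * |(y 0 : ℝ)| := by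
    intro t
    induction t with
    | zero => intro _; simp [bb]
    | succ t ih =>
      intro ht
      have hn0 : (0 : ℝ) < n := by exact_mod_cast (by omega : 0 < n)
      have h1 : (n : ℝ) ≤ |(y t : ℝ)| := by exact_mod_cast hn t (by omega)
      have h2 : (2 : ℝ) ^ e t * (y (t + 1) : ℝ) = a * y t + 1 := by exact_mod_cast h t
      have h3 : (2 : ℝ) ^ e t * |(y (t + 1) : ℝ)| ≤ a * |(y t : ℝ)| + 1 := by
        have := abs_add_le ((a : ℝ) * y t) 1
        rw [← h2, abs_mul, abs_mul, abs_of_pos (by positivity : (0 : ℝ) < 2 ^ e t),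
          abs_of_nonneg (by positivity : (0 : ℝ) ≤ a), abs_one] at this
        exact this
      have h4 : 1 ≤ (a : ℝ) * |(y t : ℝ)| * (1 / n) := by
        rw [mul_one_div, le_div_iff₀ hn0]
        nlinarith
      have h5 : 1 / (n : ℝ) + 1 ≤ Real.exp (1 / n) := Real.add_one_le_exp _
      have h6 : (2 : ℝ) ^ e t * |(y (t + 1) : ℝ)| ≤ Real.exp (1 / n) * a * |(y t : ℝ)| := by
        have : 0 ≤ (a : ℝ) * |(y t : ℝ)| := by positivity
        nlinarith
      have h7 := ih (by omega)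
      rw [bb_succ, pow_add, mul_assoc, Nat.cast_succ, add_div, Real.exp_add, pow_succ]
      calc (2 : ℝ) ^ bb e t * (2 ^ e t * |(y (t + 1) : ℝ)|)
          ≤ 2 ^ bb e t * (Real.exp (1 / n) * a * |(y t : ℝ)|) := by gcongr
        _ = Real.exp (1 / n) * a * (2 ^ bb e t * |(y t : ℝ)|) := by ring
        _ ≤ Real.exp (1 / n) * a * (Real.exp (t / n) * a ^ t * |(y 0 : ℝ)|) := by gcongr
        _ = _ := by ring
  intro t ht
  have h1 : Real.exp (t / n) ≤ 3 := by
    refine (Real.exp_le_exp.2 (div_le_one_of_le₀ (by exact_mod_cast ht) (by positivity))).trans ?_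
    have := Real.exp_one_lt_d9
    linarith
  have h2 : (2 : ℝ) ^ bb e t * |(y t : ℝ)| ≤ 3 * a ^ t * |(y 0 : ℝ)| :=
    (key t ht).trans (by gcongr)
  exact_mod_cast h2

theorem size2 {a : ℕ} (ha : 1 ≤ a) (e : ℕ → ℕ) (n : ℕ) :
    a ^ n ≤ 2 ^ bb e n * a ^ (II a e n + JJ a e n) := by
  induction n with
  | zero => simp [bb, II, JJ]
  | succ n ih =>
    rw [bb_succ, II_succ, JJ_succ, pow_succ, pow_add]
    by_cases h : 2 ^ e n < a
    · have h1 : (II a e n + if 2 ^ e n < a ∧ e (n + 1) = e n then 1 else 0) +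
          (JJ a e n + if 2 ^ e n < a ∧ e (n + 1) ≠ e n then 1 else 0) =
          II a e n + JJ a e n + 1 := by
        by_cases h' : e (n + 1) = e n <;> simp [h, h'] <;> omega
      rw [h1, pow_succ]
      calc a ^ n * a ≤ 2 ^ bb e n * a ^ (II a e n + JJ a e n) * a := by gcongr
        _ = 2 ^ bb e n * 1 * (a ^ (II a e n + JJ a e n) * a) := by ring
        _ ≤ _ := by gcongr; exact Nat.one_le_two_pow
    · rw [if_neg (fun h' => h h'.1), if_neg (fun h' => h h'.1), add_zero, add_zero]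
      calc a ^ n * a ≤ 2 ^ bb e n * a ^ (II a e n + JJ a e n) * 2 ^ e n :=
            Nat.mul_le_mul ih (not_lt.1 h)
        _ = _ := by ring

end Pool.Agent.Lib.MP_dee342_nt.Ar
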