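import Pool.Agent.Lib.MP_dee342_nt.Ar.Seq

/-! Numerical facts for a window. -/

namespace Pool.Agent.Lib.MP_dee342_nt.Ar

open Finset

theorem win0_cube (m : ℕ) (hm : 20 ≤ m) : 125 * m ^ 3 ≤ 2 ^ m := by
  induction m, hm using Nat.le_induction with
  | base => norm_num
  | succ m hm ih =>
    have h1 : 20 * m ^ 2 ≤ m ^ 3 := by nlinarith
    have h2 : 20 * m ≤ m ^ 2 := by nlinarith
    rw [pow_succ 2 m]
    nlinarith

theorem win0_gen {c Q R l : ℕ} (hc : 1 ≤ c) (hr : 3 * c ≤ R) (hR : 100 ≤ R) (hQ : Q ≤ 2 ^ R)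
    (hl : R ^ 20 ≤ l) : c * l ≤ R * (l / 2) ∧ c * l ≤ 2 ^ l ∧
      6 * (c * l * Q) * 2 ^ (l / 2) ≤ 2 ^ l ∧
      ((c * l * Q : ℕ) : ℝ) ≤ Real.exp ((c * l : ℕ) / (16 * (R : ℝ) ^ 3)) := by
  have h0 : 2048 * R ^ 6 ≤ l := by
    refine le_trans ?_ hl
    have : 2048 ≤ R ^ 14 := le_trans (by norm_num) (Nat.pow_le_pow_left hR 14)
    calc 2048 * R ^ 6 ≤ R ^ 14 * R ^ 6 := Nat.mul_le_mul_right _ this
      _ = R ^ 20 := by ring
  have h1 : R ≤ R ^ 6 := Nat.le_self_pow (by norm_num) R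
  have h2 : l ^ 3 ≤ 2 ^ (l / 4) := by
    refine le_trans ?_ (win0_cube (l / 4) (by omega))
    calc l ^ 3 ≤ (5 * (l / 4)) ^ 3 := Nat.pow_le_pow_left (by omega) 3
      _ = _ := by ring
  have h3 : l * l ≤ l ^ 3 := by
    calc l * l = l ^ 2 := by ring
      _ ≤ l ^ 3 := Nat.pow_le_pow_right (by omega) (by norm_num)
  refine ⟨?_, ?_, ?_, ?_⟩
  · calc c * l ≤ c * (3 * (l / 2)) := Nat.mul_le_mul_left _ (by omega)
      _ = 3 * c * (l / 2) := by ring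
      _ ≤ _ := Nat.mul_le_mul_right _ hr
  · calc c * l ≤ l * l := Nat.mul_le_mul_right _ (by omega)
      _ ≤ 2 ^ (l / 4) := h3.trans h2
      _ ≤ _ := Nat.pow_le_pow_right two_pos (by omega)
  · calc 6 * (c * l * Q) * 2 ^ (l / 2) = 6 * c * l * Q * 2 ^ (l / 2) := by ring
      _ ≤ 2 ^ (l / 4) * 2 ^ (l / 4) * 2 ^ (l / 2) :=
        Nat.mul_le_mul_right _ (Nat.mul_le_mul
          ((Nat.mul_le_mul_right _ (by omega)).trans (h3.trans h2))
          (hQ.trans (Nat.pow_le_pow_right two_pos (by omega))))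
      _ ≤ _ := by
        rw [← pow_add, ← pow_add]
        exact Nat.pow_le_pow_right two_pos (by omega)
  · have h4 : (2048 : ℝ) * R ^ 6 ≤ (c * l : ℕ) := by
      exact_mod_cast h0.trans (Nat.le_mul_of_pos_left l hc)
    have h5 : (100 : ℝ) ≤ R := by exact_mod_cast hR
    rw [Nat.cast_mul]
    generalize ((c * l : ℕ) : ℝ) = N at h4
    have hp : (0 : ℝ) < R ^ 3 := by positivity
    obtain ⟨x, rfl⟩ : ∃ x, N = x * (32 * R ^ 3) := ⟨N / (32 * R ^ 3), by field_simp⟩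
    have h6 : 64 * (R : ℝ) ^ 3 ≤ x := le_of_mul_le_mul_right (by nlinarith) hp
    have h7 : (R : ℝ) ≤ R ^ 3 := le_self_pow₀ (by linarith) (by norm_num)
    have h8 : x * (32 * R ^ 3) ≤ Real.exp x := by
      have := Real.quadratic_le_exp_of_nonneg (x := x) (by linarith)
      nlinarith
    have h9 : (Q : ℝ) ≤ Real.exp x := by
      calc (Q : ℝ) ≤ 2 ^ R := by exact_mod_cast hQ
        _ ≤ Real.exp 1 ^ R := pow_le_pow_left₀ zero_le_two
          (by linarith [Real.add_one_le_exp 1]) R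
        _ = Real.exp R := by rw [← Real.exp_nat_mul, mul_one]
        _ ≤ _ := Real.exp_le_exp.2 (by linarith)
    rw [show x * (32 * (R : ℝ) ^ 3) / (16 * R ^ 3) = x + x by field_simp; ring, Real.exp_add]
    exact mul_le_mul h8 h9 (Nat.cast_nonneg _) (Real.exp_pos _).le

theorem win_num {a R r l : ℕ} (ha3 : 3 ≤ a) (hR : 10 ^ 7 * (a + 4) ^ 4 ≤ R)
    (hr : 60 * a ^ 3 * (r + 1) ≤ R) (hl : R ^ 20 ≤ l) :
    20 * a ^ 3 * (r + 1) * l ≤ R * (l / 2) ∧ 20 * a ^ 3 * (r + 1) * l ≤ 2 ^ l ∧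
      6 * (20 * a ^ 3 * (r + 1) * l * (a ^ a * (a + 2))) * 2 ^ (l / 2) ≤ 2 ^ l ∧
      ((20 * a ^ 3 * (r + 1) * l * (a ^ a * (a + 2)) : ℕ) : ℝ) ≤
        Real.exp ((20 * a ^ 3 * (r + 1) * l : ℕ) / (16 * (R : ℝ) ^ 3)) := by
  have h1 : (a + 4) ^ 2 ≤ (a + 4) ^ 4 := Nat.pow_le_pow_right (by omega) (by norm_num)
  refine win0_gen (Nat.succ_le_of_lt (by positivity)) (by linarith) (by nlinarith) ?_ hl
  calc a ^ a * (a + 2) ≤ (2 ^ a) ^ a * 2 ^ (a + 2) :=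
        Nat.mul_le_mul (Nat.pow_le_pow_left Nat.lt_two_pow_self.le a) Nat.lt_two_pow_self.le
    _ ≤ 2 ^ R := by
      rw [← pow_mul, ← pow_add]
      exact Nat.pow_le_pow_right two_pos (by nlinarith)

end Pool.Agent.Lib.MP_dee342_nt.Ar
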