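import Pool.Agent.Lib.MP_dee342_nt.Ar.Rep0
import Pool.Agent.Lib.MP_dee342_nt.Ar.Rep1
import Pool.Agent.Lib.MP_dee342_nt.Ar.Size
import Pool.Agent.Lib.MP_dee342_nt.Ar.Len
import Pool.Agent.Lib.MP_dee342_nt.Ar.Win0

/-! A climb with few ends of runs gives a weighted window. -/

namespace Pool.Agent.Lib.MP_dee342_nt.Ar

open Finset

theorem win_sum {M : Type} [AddCommMonoid M] (f : ℕ → M) {J r : ℕ} (h : J ≤ r) :
    ∑ j : Fin (r + 1), (if (j : ℕ) ≤ J then f j else 0) = ∑ j ∈ range (J + 1), f j := by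
  rw [Fin.sum_univ_eq_sum_range (fun j => if j ≤ J then f j else 0), ← sum_filter]
  refine sum_congr (Finset.ext fun j => ?_) fun _ _ => rfl
  simp only [mem_filter, mem_range]
  omega

theorem win_int {a b l n I : ℕ} {u v : ℤ} (h1 : 2 ^ b * v ≤ 3 * (a : ℤ) ^ n * u)
    (h2 : a ^ n ≤ 2 ^ b * a ^ I) (h3 : 2 ^ (4 * a * l) ≤ v) (h5 : u ≤ 2 ^ (l + a))
    : 4 * a * l ≤ 2 + a * I + (l + a) := by
  have k1 : a ^ I ≤ 2 ^ (a * I) := by
    rw [pow_mul]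
    exact Nat.pow_le_pow_left Nat.lt_two_pow_self.le _
  have k2 : (a : ℤ) ^ n ≤ 2 ^ b * 2 ^ (a * I) := by
    exact_mod_cast h2.trans (Nat.mul_le_mul_left _ k1)
  have k3 : (2 : ℤ) ^ b * 2 ^ (4 * a * l) ≤ 2 ^ b * 2 ^ (2 + a * I + (l + a)) :=
    calc (2 : ℤ) ^ b * 2 ^ (4 * a * l) ≤ 2 ^ b * v := by gcongr
      _ ≤ 3 * (a : ℤ) ^ n * u := h1
      _ ≤ 3 * (a : ℤ) ^ n * 2 ^ (l + a) := by gcongr
      _ ≤ 4 * (2 ^ b * 2 ^ (a * I)) * 2 ^ (l + a) := by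
        gcongr
        norm_num
      _ = _ := by ring
  exact (pow_le_pow_iff_right₀ one_lt_two).1 (le_of_mul_le_mul_left k3 (by positivity))

theorem win_dom {a α β E t c G l : ℕ} {s W d u v : ℤ} (h1 : |s| ≤ W * 2 ^ E) (hW : 0 ≤ W)
    (h2 : β + E ≤ c) (h3 : 2 ^ c * v ≤ 3 * (a : ℤ) ^ t * u) (h4 : 2 ^ l ≤ v) (h5 : u ≤ 2 * |d|)
    (h6 : 6 * W * 2 ^ G ≤ 2 ^ l) :
    2 ^ G * |s * ((a : ℤ) ^ α * 2 ^ β)| ≤ |d * ((a : ℤ) ^ (α + t) * 2 ^ 0)| := by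
  rw [abs_mul, abs_mul d, abs_of_nonneg (show 0 ≤ (a : ℤ) ^ α * 2 ^ β by positivity),
    abs_of_nonneg (show 0 ≤ (a : ℤ) ^ (α + t) * 2 ^ 0 by positivity)]
  refine le_of_mul_le_mul_right ?_ (show (0 : ℤ) < 2 ^ l by positivity)
  have k1 : (2 : ℤ) ^ (β + E) * 2 ^ l ≤ 3 * (a : ℤ) ^ t * (2 * |d|) :=
    calc (2 : ℤ) ^ (β + E) * 2 ^ l ≤ 2 ^ c * v := by
          gcongr
          norm_num
      _ ≤ 3 * (a : ℤ) ^ t * u := h3
      _ ≤ _ := by gcongr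
  calc 2 ^ G * (|s| * ((a : ℤ) ^ α * 2 ^ β)) * 2 ^ l
      ≤ 2 ^ G * (W * 2 ^ E * ((a : ℤ) ^ α * 2 ^ β)) * 2 ^ l := by gcongr
    _ = 2 ^ G * W * (a : ℤ) ^ α * (2 ^ (β + E) * 2 ^ l) := by ring
    _ ≤ 2 ^ G * W * (a : ℤ) ^ α * (3 * (a : ℤ) ^ t * (2 * |d|)) := by gcongr
    _ = |d| * ((a : ℤ) ^ (α + t) * 2 ^ 0) * (6 * W * 2 ^ G) := by ring
    _ ≤ _ := by gcongr

theorem window {a : ℕ} (ha : Odd a) (ha3 : 3 ≤ a) (y : ℕ → ℤ) (e : ℕ → ℕ) (he : ∀ i, 1 ≤ e i)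
    (h : ∀ i, 2 ^ e i * y (i + 1) = a * y i + 1) {R r l n : ℕ} (hR : 10 ^ 7 * (a + 4) ^ 4 ≤ R)
    (hr : 60 * a ^ 3 * (r + 1) ≤ R) (hl : R ^ 20 ≤ l) (hlo : ∀ i ≤ n, 2 ^ l ≤ |y i|)
    (hhi : ∀ i ≤ n, |y i| ≤ 2 ^ (5 * a * l)) (h0 : |y 0| ≤ 2 ^ (l + a))
    (hn : 2 ^ (4 * a * l) ≤ |y n|) (hJ : JJ a e n ≤ r) :
    BlkW a R (r + 1) (20 * a ^ 3 * (r + 1) * l) := by
  obtain ⟨w1, w2, w3, w4⟩ := win_num ha3 hR hr hl
  have a1 : a ≤ a ^ 3 := Nat.le_self_pow (by norm_num) a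
  have l1 : 60 * a ^ 3 * (r + 1) ≤ l := hr.trans ((Nat.le_self_pow (by norm_num) R).trans hl)
  have l2 : 60 * a + 60 * r ≤ l := by nlinarith
  have y2 : ∀ i ≤ n, 2 ≤ |y i| := fun i hi =>
    (le_self_pow₀ one_le_two (by omega)).trans (hlo i hi)
  have b1 : bb e n ≤ 20 * a ^ 3 * (r + 1) * l :=
    calc bb e n ≤ 4 * a ^ 2 * (JJ a e n + 1) * (5 * a * l) :=
          length ha ha3 _ n y e he h fun i hi => ⟨y2 i hi, hhi i hi⟩
      _ ≤ 4 * a ^ 2 * (r + 1) * (5 * a * l) := by gcongr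
      _ = _ := by ring
  have N1 : 2 * l ≤ 20 * a ^ 3 * (r + 1) * l := Nat.mul_le_mul_right _ (by nlinarith)
  generalize 20 * a ^ 3 * (r + 1) * l = N at *
  have n1 : n ≤ N := (le_bb he n).trans b1
  have s1 := size1 (by omega) y e h (n := n) fun i hi =>
    le_trans (by exact_mod_cast n1.trans w2) (hlo i hi.le)
  have i1 := win_int (s1 n le_rfl) (size2 (by omega) e n) hn h0
  have i2 : l + a + 1 + l / 2 ≤ II a e n := by
    by_contra hc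
    have k1 : a * (II a e n + JJ a e n) ≤ a * (2 * l) := Nat.mul_le_mul_left _ (by omega)
    have k2 : 3 * l ≤ a * l := Nat.mul_le_mul_right _ ha3
    have k3 : 4 * a * l = 4 * (a * l) := by ring
    have k4 : a * (2 * l) = 2 * (a * l) := by ring
    omega
  obtain ⟨Q, D, c, q1, q2, d1, d2, d3, d4⟩ := rep0 ha3 y e h
  obtain ⟨α, β, E, s, r1, r2, r3⟩ :=
    rep1 e he (fun i => two_pow_ne ha (he i)) D c (Q * (a + 2)) d2 d3 d4 n
  have q1' : (1 : ℤ) ≤ Q := by exact_mod_cast q1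
  have q2' : (Q : ℤ) ≤ (a : ℤ) ^ a := by exact_mod_cast q2
  have e1 : |(Q : ℤ) * y 0| = Q * |y 0| := by rw [abs_mul, abs_of_nonneg (by omega)]
  have e2 := abs_sub_abs_le_abs_sub (D 0) (Q * y 0)
  have e3 := abs_sub_abs_le_abs_sub (Q * y 0) (D 0)
  rw [abs_sub_comm] at e3
  have e4 := d1 0
  have e5 := y2 0 (Nat.zero_le n)
  have D1 : |y 0| ≤ 2 * |D 0| := by nlinarith
  have W1 : a ^ a ≤ N * (a ^ a * (a + 2)) :=
    (Nat.le_mul_of_pos_right _ (by omega)).trans (Nat.le_mul_of_pos_left _ (by omega))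
  have W2 : ∀ j ≤ JJ a e n, |s j| ≤ (N * (a ^ a * (a + 2)) : ℕ) * 2 ^ E j := fun j hj => by
    refine (r2 j hj).2.2.trans ?_
    push_cast
    gcongr
  have D2 : |D 0| ≤ (N * (a ^ a * (a + 2)) : ℕ) * 2 ^ (l + a + 1) :=
    calc |D 0| ≤ Q * (2 * |y 0|) := by nlinarith
      _ ≤ (N * (a ^ a * (a + 2)) : ℕ) * (2 * 2 ^ (l + a)) := by
        gcongr
        exact q2.trans W1
      _ = _ := by ring
  have W0 : 1 ≤ N * (a ^ a * (a + 2)) := q1.trans (q2.trans W1)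
  generalize N * (a ^ a * (a + 2)) = W at *
  refine ⟨Fin.cons n fun j => if (j : ℕ) ≤ JJ a e n then α j else 0,
    Fin.cons 0 fun j => if (j : ℕ) ≤ JJ a e n then β j else 0,
    Fin.cons (l + a + 1) fun j => if (j : ℕ) ≤ JJ a e n then E j else 0, bb e n, l / 2,
    Fin.cons (D 0) fun j => if (j : ℕ) ≤ JJ a e n then s j else 0, (W : ℝ), fun j => ?_, b1, rfl,
    fun j => ?_, ?_, w1, by exact_mod_cast W0, w4, fun j => ?_, ⟨D n, ?_⟩, fun k => ?_,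
    fun j => ?_⟩
  · refine Fin.cases n1 (fun j => ?_) j
    rw [Fin.cons_succ]
    split_ifs with k
    exacts [(r2 j k).1.trans n1, Nat.zero_le _]
  · refine Fin.cases (show 0 + (l + a + 1) ≤ N by omega) (fun j => ?_) j
    rw [Fin.cons_succ, Fin.cons_succ]
    split_ifs with k
    exacts [(r2 j k).2.1.trans ((bb_mono e (Nat.sub_le _ _)).trans b1), Nat.zero_le _]
  · rw [Fin.sum_univ_succ]
    simp only [Fin.cons_zero, Fin.cons_succ]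
    rw [win_sum E hJ]
    omega
  · refine Fin.cases ?_ (fun j => ?_) j
    · rw [Fin.cons_zero, Fin.cons_zero]
      exact_mod_cast D2
    rw [Fin.cons_succ, Fin.cons_succ]
    split_ifs with k
    · exact_mod_cast W2 j k
    · simp
  · rw [Fin.sum_univ_succ, r1, ← win_sum (fun j => s j * (a ^ α j * 2 ^ β j)) hJ]
    simp only [Fin.cons_zero, Fin.cons_succ, pow_zero, mul_one]
    rw [mul_comm]
    congr 1
    refine sum_congr rfl fun j _ => ?_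
    split_ifs
    exacts [rfl, zero_mul _]
  · rw [Fin.cons_zero] at k
    rw [k, abs_zero] at D1
    omega
  · refine Fin.cases (fun k => absurd rfl k) (fun j _ => ?_) j
    simp only [Fin.cons_zero, Fin.cons_succ]
    split_ifs with k
    · have := win_dom (α := α j) (W2 j k) (by positivity) (r2 j k).2.1 (s1 _ (Nat.sub_le _ _))
        (hlo _ (Nat.sub_le _ _)) D1 (by exact_mod_cast w3)
      rwa [Nat.add_sub_cancel' (r2 j k).1] at this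
    · rw [zero_mul, abs_zero, mul_zero]
      exact abs_nonneg _

end Pool.Agent.Lib.MP_dee342_nt.Ar
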