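import Pool.Agent.Lib.MP_dee342_nt.Ar.Lev0
import Pool.Agent.Lib.MP_dee342_nt.Ar.Win

/-! Counting the levels. -/

namespace Pool.Agent.Lib.MP_dee342_nt.Ar

open Finset

theorem lev_sum (a : ℕ) (e : ℕ → ℕ) {s n : ℕ → ℕ} {H k : ℕ}
    (hw : ∀ w < H, s w + n w ≤ k ∧ (w + 1 < H → s w + n w ≤ s (w + 1))) :
    ∑ w ∈ range H, JJ a (fun i => e (s w + i)) (n w) ≤ JJ a e k := by
  have h1 : ∀ v < H, ∑ w ∈ range (v + 1), JJ a (fun i => e (s w + i)) (n w) ≤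
      JJ a e (s v + n v) := by
    intro v
    induction v with
    | zero =>
      intro _
      rw [sum_range_one, JJ_add]
      exact Nat.le_add_left _ _
    | succ v ih =>
      intro hv
      rw [sum_range_succ, JJ_add]
      exact Nat.add_le_add_right
        ((ih (by omega)).trans (JJ_mono a e ((hw v (by omega)).2 hv))) _
  cases H with
  | zero => simp
  | succ v => exact (h1 v (by omega)).trans (JJ_mono a e (hw v (by omega)).1)

theorem lev_card (J : ℕ → ℕ) {H r M c : ℕ} (h : ∑ w ∈ range H, J w ≤ M)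
    (hH : H = M / (r + 1) + c) : c ≤ #{w ∈ range H | J w ≤ r} := by
  have h1 := card_filter_add_card_filter_not (s := range H) (fun w => J w ≤ r)
  have h2 : #{w ∈ range H | ¬ J w ≤ r} * (r + 1) ≤ M := by
    refine le_trans ?_ ((sum_le_sum_of_subset (filter_subset (fun w => ¬ J w ≤ r) _)).trans h)
    rw [← smul_eq_mul]
    exact card_nsmul_le_sum _ _ _ fun w hw => Nat.succ_le_of_lt (not_le.1 (mem_filter.1 hw).2)
  have h3 := (Nat.le_div_iff_mul_le (Nat.succ_pos r)).2 h2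
  rw [card_range] at h1
  simp only [Nat.succ_eq_add_one] at h3
  omega

theorem levels {a : ℕ} (ha : Odd a) (ha3 : 3 ≤ a) (y : ℕ → ℤ) (e : ℕ → ℕ) (he : ∀ i, 1 ≤ e i)
    (h : ∀ i, 2 ^ e i * y (i + 1) = a * y i + 1) {R r Z k : ℕ} (hR : 10 ^ 7 * (a + 4) ^ 4 ≤ R)
    (hr : 60 * a ^ 3 * (r + 1) ≤ R) (hZ : R ^ 20 * 2 ^ R ^ 14 ≤ Z) (h0 : |y 0| ≤ 2 ^ Z)
    (hq : ∀ N : Fin (R ^ 13) → ℕ, (∀ w, R ^ 20 * 2 ^ R ^ 14 ≤ N w) →
      (∀ w w', w < w' → 2 ^ R ^ 14 * N w ≤ N w') → (∀ w, BlkW a R (r + 1) (N w)) → False) :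
    |y k| ≤ 2 ^ ((4 * a) ^ (JJ a e k / (r + 1) + R ^ 27) * Z) := by
  by_contra hc
  have hR1 : 1 ≤ R := le_trans (Nat.succ_le_of_lt (by positivity)) hR
  have h14 : 1 ≤ R ^ 14 := Nat.one_le_pow _ _ hR1
  have h20 : 1 ≤ R ^ 20 := Nat.one_le_pow _ _ hR1
  have h2 : 2 ^ 1 ≤ 2 ^ R ^ 14 := Nat.pow_le_pow_right two_pos h14
  have hZ2 : 2 ≤ Z := le_trans (Nat.mul_le_mul h20 h2) hZ
  have hZ20 : R ^ 20 ≤ Z := le_trans (Nat.le_mul_of_pos_right _ (by positivity)) hZ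
  have hl : ∀ w, Z ≤ (4 * a) ^ w * Z := fun w => Nat.le_mul_of_pos_left _ (by positivity)
  obtain ⟨s, n, hw⟩ := lev_windows ha3 y e he h hZ2 h0 (not_le.1 hc)
  have hcard := lev_card (fun w => JJ a (fun i => e (s w + i)) (n w))
    (lev_sum a e fun w hw' => ⟨(hw w hw').1, (hw w hw').2.1⟩) rfl
  obtain ⟨φ, hφ, hsep⟩ := exists_sepA _ (fun w => 20 * a ^ 3 * (r + 1) * ((4 * a) ^ w * Z))
    (fun w _ w' _ hlt => by
      have h3 : (4 * a) ^ (w + 1) ≤ (4 * a) ^ w' := Nat.pow_le_pow_right (by omega) hlt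
      have h4 : 2 * (4 * a) ^ w ≤ (4 * a) ^ w' := by
        refine le_trans ?_ h3
        rw [pow_succ']
        exact Nat.mul_le_mul_right _ (by omega)
      rw [mul_left_comm, ← mul_assoc 2]
      exact Nat.mul_le_mul_left _ (Nat.mul_le_mul_right _ h4))
    (R ^ 14) (R ^ 13) (by rw [← pow_add]; exact hcard) h14
  refine hq (fun w => 20 * a ^ 3 * (r + 1) * ((4 * a) ^ φ w * Z)) (fun w => ?_) hsep fun w => ?_
  · exact (hZ.trans (hl _)).trans (Nat.le_mul_of_pos_left _ (by positivity))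
  · obtain ⟨h3, h4⟩ := mem_filter.1 (hφ w)
    obtain ⟨-, -, h5, h6, h7, h8⟩ := hw _ (mem_range.1 h3)
    exact window ha ha3 (fun i => y (s (φ w) + i)) (fun i => e (s (φ w) + i)) (fun i => he _)
      (fun i => h _) hR hr (hZ20.trans (hl _)) h5 h6 h7 h8 h4

end Pool.Agent.Lib.MP_dee342_nt.Ar
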