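import Pool.Agent.Lib.MP_dee342_nt.Ar.Seq

/-! Last exits and first entries. -/

namespace Pool.Agent.Lib.MP_dee342_nt.Ar

open Finset

/-- Enumerate `Bd` increasingly (`Finset.orderEmbOfFin`) and take every `S`-th element. -/
theorem exists_sepA (Bd : Finset ℕ) (N : ℕ → ℕ)
    (h : ∀ w ∈ Bd, ∀ w' ∈ Bd, w < w' → 2 * N w ≤ N w') (S m : ℕ) (hS : S * m ≤ Bd.card)
    (hS1 : 1 ≤ S) :
    ∃ φ : Fin m → ℕ, (∀ h, φ h ∈ Bd) ∧ ∀ h h', h < h' → 2 ^ S * N (φ h) ≤ N (φ h') := by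
  have h1 : ∀ (k i : ℕ) (hi : i < Bd.card) (hk : i + k < Bd.card),
      2 ^ k * N (Bd.orderEmbOfFin rfl ⟨i, hi⟩) ≤ N (Bd.orderEmbOfFin rfl ⟨i + k, hk⟩) := by
    intro k i hi
    induction k with
    | zero => intro _; simp
    | succ k ih =>
      intro hk
      have h2 := ih (by omega)
      have h3 := h _ (Bd.orderEmbOfFin_mem rfl ⟨i + k, by omega⟩) _
        (Bd.orderEmbOfFin_mem rfl ⟨i + (k + 1), hk⟩)
        ((Bd.orderEmbOfFin rfl).strictMono (Fin.mk_lt_mk.2 (by omega)))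
      rw [pow_succ]
      linarith
  have h2 : ∀ j : Fin m, S * j < Bd.card := fun j =>
    lt_of_lt_of_le (Nat.mul_lt_mul_of_pos_left j.2 hS1) hS
  refine ⟨fun j => Bd.orderEmbOfFin rfl ⟨S * j, h2 j⟩, fun j => Bd.orderEmbOfFin_mem rfl _,
    fun j j' hj => ?_⟩
  have h3 : S * (j + 1) ≤ S * j' := Nat.mul_le_mul_left S hj
  rw [mul_add, mul_one] at h3
  obtain ⟨k, hk⟩ := Nat.exists_eq_add_of_le h3
  have h4 := h1 (S + k) (S * j) (h2 j) (by have := h2 j'; omega)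
  have h5 : (⟨S * j + (S + k), by have := h2 j'; omega⟩ : Fin Bd.card) = ⟨S * j', h2 j'⟩ :=
    Fin.ext (by simp only []; omega)
  rw [h5] at h4
  exact (Nat.mul_le_mul_right _ (Nat.pow_le_pow_right two_pos (Nat.le_add_right S k))).trans h4

theorem lev0_step {a : ℕ} {y : ℕ → ℤ} {e : ℕ → ℕ} (he : ∀ i, 1 ≤ e i)
    (h : ∀ i, 2 ^ e i * y (i + 1) = a * y i + 1) {i m : ℕ} (hi : |y i| ≤ 2 ^ m) :
    |y (i + 1)| ≤ 2 ^ (m + a) := by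
  have h1 : (2 : ℤ) ≤ 2 ^ e i := le_self_pow₀ one_le_two (by have := he i; omega)
  have h2 : (a : ℤ) ≤ 2 ^ a := by exact_mod_cast Nat.lt_two_pow_self.le
  have h3 : 2 ^ e i * |y (i + 1)| ≤ a * |y i| + 1 := by
    have := abs_add_le (a * y i) 1
    rwa [← h i, abs_mul, abs_mul, abs_one, Nat.abs_cast, abs_pow, abs_two] at this
  have h4 : (a : ℤ) * |y i| ≤ 2 ^ a * 2 ^ m :=
    mul_le_mul h2 hi (abs_nonneg _) (by positivity)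
  have h5 := mul_le_mul_of_nonneg_right h1 (abs_nonneg (y (i + 1)))
  have h6 : (0 : ℤ) < 2 ^ a * 2 ^ m := by positivity
  rw [pow_add, mul_comm]
  omega

theorem lev0_one {a : ℕ} (ha3 : 3 ≤ a) {y : ℕ → ℤ} {e : ℕ → ℕ} (he : ∀ i, 1 ≤ e i)
    (h : ∀ i, 2 ^ e i * y (i + 1) = a * y i + 1) {L k : ℕ} (hL : 1 ≤ L) (h0 : |y 0| ≤ 2 ^ L)
    (hk : 2 ^ (4 * a * L) < |y k|) :
    ∃ s n : ℕ, s + n ≤ k ∧ 1 ≤ s ∧ (∀ i < s + n, |y i| ≤ 2 ^ (4 * a * L)) ∧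
      (∀ i < s + n, |y i| ≤ 2 ^ L → i < s) ∧ (∀ i ≤ n, 2 ^ L ≤ |y (s + i)|) ∧
      (∀ i ≤ n, |y (s + i)| ≤ 2 ^ (5 * a * L)) ∧ |y s| ≤ 2 ^ (L + a) ∧
      2 ^ (4 * a * L) < |y (s + n)| := by
  classical
  have hex : ∃ i, 2 ^ (4 * a * L) < |y i| := ⟨k, hk⟩
  have p : ∀ {u v : ℕ}, u ≤ v → (2 : ℤ) ^ u ≤ 2 ^ v := fun h => pow_le_pow_right₀ one_le_two h
  have hL4 : L ≤ 4 * a * L := Nat.le_mul_of_pos_left _ (by omega)
  have haL : a ≤ a * L := Nat.le_mul_of_pos_right _ hL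
  have t1 := Nat.find_spec hex
  have t2 : ∀ i < Nat.find hex, |y i| ≤ 2 ^ (4 * a * L) := fun i hi =>
    not_lt.1 (Nat.find_min hex hi)
  have t3 : Nat.find hex ≤ k := Nat.find_min' hex hk
  generalize Nat.find hex = t at t1 t2 t3
  obtain ⟨t, rfl⟩ : ∃ u, t = u + 1 := Nat.exists_eq_succ_of_ne_zero fun c =>
    absurd (h0.trans (p hL4)) (not_le.2 (c ▸ t1))
  have u1 : |y (Nat.findGreatest (fun i => |y i| ≤ 2 ^ L) t)| ≤ 2 ^ L :=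
    Nat.findGreatest_spec (P := fun i => |y i| ≤ 2 ^ L) (Nat.zero_le t) h0
  have u2 : ∀ i ≤ t, |y i| ≤ 2 ^ L → i ≤ Nat.findGreatest (fun i => |y i| ≤ 2 ^ L) t :=
    fun i hi c => Nat.le_findGreatest hi c
  obtain ⟨n, hn⟩ := Nat.exists_eq_add_of_le (Nat.findGreatest_le (P := fun i => |y i| ≤ 2 ^ L) t)
  generalize Nat.findGreatest (fun i => |y i| ≤ 2 ^ L) t = u at u1 u2 hn
  have e1 : u + 1 + n = t + 1 := by omega
  refine ⟨u + 1, n, by omega, by omega, e1 ▸ t2, fun i hi c => ?_, fun i hi => ?_, fun i hi => ?_,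
    lev0_step he h u1, e1 ▸ t1⟩
  · have := u2 i (by omega) c
    omega
  · rcases hi.lt_or_eq with c | rfl
    · by_contra c'
      have := u2 (u + 1 + i) (by omega) (not_le.1 c').le
      omega
    · exact e1 ▸ (p hL4).trans t1.le
  · rcases hi.lt_or_eq with c | rfl
    · exact (t2 _ (by omega)).trans (p (by nlinarith))
    · exact e1 ▸ (lev0_step he h (t2 t t.lt_succ_self)).trans (p (by nlinarith))

theorem lev_windows {a : ℕ} (ha3 : 3 ≤ a) (y : ℕ → ℤ) (e : ℕ → ℕ) (he : ∀ i, 1 ≤ e i)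
    (h : ∀ i, 2 ^ e i * y (i + 1) = a * y i + 1) {Z H k : ℕ} (hZ : 2 ≤ Z) (h0 : |y 0| ≤ 2 ^ Z)
    (hk : 2 ^ ((4 * a) ^ H * Z) < |y k|) :
    ∃ s n : ℕ → ℕ, ∀ w < H, s w + n w ≤ k ∧ (w + 1 < H → s w + n w ≤ s (w + 1)) ∧
      (∀ i ≤ n w, 2 ^ ((4 * a) ^ w * Z) ≤ |y (s w + i)|) ∧
      (∀ i ≤ n w, |y (s w + i)| ≤ 2 ^ (5 * a * ((4 * a) ^ w * Z))) ∧
      |y (s w)| ≤ 2 ^ ((4 * a) ^ w * Z + a) ∧
      2 ^ (4 * a * ((4 * a) ^ w * Z)) ≤ |y (s w + n w)| := by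
  have p : ∀ {u v : ℕ}, u ≤ v → (2 : ℤ) ^ u ≤ 2 ^ v := fun h => pow_le_pow_right₀ one_le_two h
  have e1 : ∀ w, (4 * a) ^ (w + 1) * Z = 4 * a * ((4 * a) ^ w * Z) := fun w => by ring
  have m : ∀ {u v : ℕ}, u ≤ v → (4 * a) ^ u * Z ≤ (4 * a) ^ v * Z := fun h =>
    Nat.mul_le_mul_right _ (Nat.pow_le_pow_right (by omega) h)
  have z : ∀ w, Z ≤ (4 * a) ^ w * Z := fun w => by simpa using m (Nat.zero_le w)
  choose! s n hs using fun w (hw : w < H) => lev0_one ha3 he h (L := (4 * a) ^ w * Z) (k := k)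
    (by have := z w; omega) (h0.trans (p (z w))) ((p (e1 w ▸ m hw)).trans_lt hk)
  refine ⟨s, n, fun w hw => ?_⟩
  obtain ⟨a1, a2, a3, -, a5, a6, a7, a8⟩ := hs w hw
  refine ⟨a1, fun hw' => ?_, a5, a6, a7, a8.le⟩
  obtain ⟨-, -, -, b4, -, -, -, b8⟩ := hs (w + 1) hw'
  have c1 : s w + n w ≤ s (w + 1) + n (w + 1) := not_lt.1 fun c =>
    absurd ((a3 _ c).trans (p (e1 w ▸ e1 (w + 1) ▸ m (by omega)))) (not_le.2 b8)
  have := b4 (s w + n w - 1) (by omega) (e1 w ▸ a3 _ (by omega))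
  omega

end Pool.Agent.Lib.MP_dee342_nt.Ar
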