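import Pool.Agent.Lib.MP_dee342_nt.Ar.Sub
import Pool.Agent.Lib.MP_dee342_nt.Ar.Lev
import Pool.Agent.Lib.MP_dee342_nt.Ar.Asym
import Pool.Agent.Lib.MP_dee342_nt.Ar.Br
import Pool.Agent.Lib.MP_dee342_nt.QAsym
import Pool.Agent.Lib.MP_dee342_nt.MinBound

/-! Cycles have many ascending runs. -/

namespace Pool.Agent.Lib.MP_dee342_nt.Ar

open Finset Function Pool.Agent.Lib.MP_dee342_nt Pool.Agent.Lib.MP_dee342_nt.Q

theorem syr_hit {a : ℕ} (ha : Odd a) (ha3 : 3 ≤ a) (t : ℕ) : ∀ {y : ℤ}, Odd y → 1 ≤ t →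
    Odd ((T a)^[t] y) → ∃ k, 1 ≤ k ∧ (T a)^[t] y = (syr a)^[k] y := by
  induction t using Nat.strong_induction_on with
  | _ t ih =>
    intro y hy ht ho
    obtain ⟨h1, h2, -, h4, h5⟩ := syr_step ha ha3 hy
    rcases lt_trichotomy t (syrE a y) with h | h | h
    · rw [h5 t ht h.le] at ho
      have h6 : Even ((2 : ℤ) ^ (syrE a y - t) * syr a y) :=
        ((Int.even_pow' (by omega)).2 even_two).mul_right _
      exact absurd ho (Int.not_odd_iff_even.2 h6)
    · exact ⟨1, le_rfl, by rw [h, h4]; rfl⟩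
    · have e : (T a)^[t] y = (T a)^[t - syrE a y] (syr a y) := by
        rw [← h4, ← iterate_add_apply, Nat.sub_add_cancel h.le]
      rw [e] at ho ⊢
      obtain ⟨k, -, hk⟩ := ih (t - syrE a y) (by omega) h1 (by omega) ho
      exact ⟨k + 1, by omega, by rw [hk, iterate_succ_apply]⟩

theorem mem_per {a : ℕ} (ha : Odd a) (ha3 : 3 ≤ a) {y : ℤ} (hy : Odd y)
    (h : y ∈ periodicPts (T a)) : y ∈ periodicPts (syr a) := by
  obtain ⟨p, hp, h⟩ := h
  have h' : (T a)^[p] y = y := h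
  obtain ⟨k, hk, e⟩ := syr_hit ha ha3 p hy hp (by rw [h']; exact hy)
  exact ⟨k, hk, e.symm.trans h'⟩

theorem runs_aux (a : ℕ) (ha : Odd a) (ha3 : 3 ≤ a) : ∃ K : ℝ, ∀ (y : ℤ) (k : ℕ), Odd y → 1 ≤ k →
    (syr a)^[k] y = y → (∀ i, 2 ≤ |(syr a)^[i] y|) →
    Real.log (bb (fun i => syrE a ((syr a)^[i] y)) k) ≤
      K * ((JJ a (fun i => syrE a ((syr a)^[i] y)) k : ℝ) + 1) ^ (27 / 28 : ℝ) := by
  obtain ⟨C, -, hC⟩ := min_bound a ha ha3
  obtain ⟨K, hK⟩ := asym a ha3 C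
  refine ⟨K, fun y k hy hk hper h2 => hK _ _ fun R r Z hR hr hZ hmin => ?_⟩
  set e : ℕ → ℕ := fun i => syrE a ((syr a)^[i] y) with he
  have hodd : ∀ i, Odd ((syr a)^[i] y) := fun i => (syr_iter ha ha3 hy i).1
  have he1 : ∀ i, 1 ≤ e i := fun i => (syr_step ha ha3 (hodd i)).2.1
  have hstep : ∀ i, 2 ^ e i * (syr a)^[i + 1] y = a * (syr a)^[i] y + 1 := fun i => by
    rw [iterate_succ_apply']
    exact (syr_step ha ha3 (hodd i)).2.2.1
  have hek : (fun i => e (k + i)) = e := funext fun i => by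
    simp only [he]
    rw [add_comm, iterate_add_apply, hper]
  have hT : (T a)^[bb e k] y = y := (syr_iter ha ha3 hy k).2.trans hper
  obtain ⟨t, -, ht⟩ := hC y _ (lt_of_lt_of_le hk (le_bb he1 k)) hT
  obtain ⟨s, hs⟩ := syr_le ha ha3 hy t
  have h0 : |(syr a)^[s + 0] y| ≤ 2 ^ Z := by
    have h1 : |(((T a)^[t] y : ℤ) : ℝ)| ≤ 2 ^ Z := ht.trans hmin
    exact hs.trans (by exact_mod_cast h1)
  have hJ : JJ a (fun i => e (s + i)) k = JJ a e k := by
    have h1 := JJ_add a e s k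
    have h3 := JJ_add a e k s
    rw [hek, add_comm k s] at h3
    omega
  have hb : bb (fun i => e (s + i)) k = bb e k := by
    have h1 := bb_add e s k
    have h3 := bb_add e k s
    rw [hek, add_comm k s] at h3
    omega
  have hR7 : 10 ^ 7 ≤ R := le_trans (Nat.le_mul_of_pos_right _ (by positivity)) hR
  have ha27 : 27 ≤ a ^ 3 := Nat.pow_le_pow_left ha3 3
  have hq : ∀ N : Fin (R ^ 13) → ℕ, (∀ w, R ^ 20 * 2 ^ R ^ 14 ≤ N w) →
      (∀ w w', w < w' → 2 ^ R ^ 14 * N w ≤ N w') → (∀ w, BlkW a R (r + 1) (N w)) → False :=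
    fun N h1 h3 h4 => qsubW (ι := Fin (R ^ 13)) (n := r + 1) ha hR (by nlinarith)
      (Fintype.card_fin _) N (fun w => (Nat.mul_le_mul_left _ (om_le hR7)).trans (h1 w))
      (fun w w' hne => (lt_or_gt_of_ne hne).imp
        (fun h => (Nat.mul_le_mul_right _ (om_le hR7)).trans (h3 _ _ h))
        fun h => (Nat.mul_le_mul_right _ (om_le hR7)).trans (h3 _ _ h)) h4
  have hlen := length ha ha3 ((4 * a) ^ (JJ a e k / (r + 1) + R ^ 27) * Z) k
    (fun i => (syr a)^[s + i] y) (fun i => e (s + i)) (fun i => he1 _) (fun i => hstep (s + i))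
    fun i hi => ⟨h2 _, (levels ha ha3 (fun i => (syr a)^[s + i] y) (fun i => e (s + i))
      (fun i => he1 _) (fun i => hstep (s + i)) (k := i) hR hr hZ h0 hq).trans (by
        refine pow_le_pow_right₀ one_le_two (Nat.mul_le_mul_right _
          (Nat.pow_le_pow_right (by omega) (Nat.add_le_add_right (Nat.div_le_div_right ?_) _)))
        exact hJ ▸ JJ_mono a _ hi)⟩
  rwa [hJ, hb] at hlen

theorem runs_k (a : ℕ) (ha : Odd a) (ha3 : 3 ≤ a) : ∃ C : ℝ, 0 ≤ C ∧ ∀ (y : ℤ) (k : ℕ), Odd y →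
    1 ≤ k → (syr a)^[k] y = y → Real.log (minimalPeriod (T a) y) ≤
      C * ((JJ a (fun i => syrE a ((syr a)^[i] y)) k : ℝ) + 1) ^ (27 / 28 : ℝ) := by
  obtain ⟨K, hK⟩ := runs_aux a ha ha3
  have l1 := Real.log_natCast_nonneg (minimalPeriod (T a) 1)
  have l2 := Real.log_natCast_nonneg (minimalPeriod (T a) (-1))
  have l3 := abs_nonneg K
  refine ⟨|K| + Real.log (minimalPeriod (T a) 1) + Real.log (minimalPeriod (T a) (-1)),
    by linarith, fun y k hy hk hper => ?_⟩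
  set e : ℕ → ℕ := fun i => syrE a ((syr a)^[i] y) with he
  have hodd : ∀ i, Odd ((syr a)^[i] y) := fun i => (syr_iter ha ha3 hy i).1
  have he1 : ∀ i, 1 ≤ e i := fun i => (syr_step ha ha3 (hodd i)).2.1
  have hp : 0 < bb e k := lt_of_lt_of_le hk (le_bb he1 k)
  have hT : IsPeriodicPt (T a) (bb e k) y := (syr_iter ha ha3 hy k).2.trans hper
  have hM : (1 : ℝ) ≤ ((JJ a e k : ℝ) + 1) ^ (27 / 28 : ℝ) :=
    Real.one_le_rpow (by linarith [Nat.cast_nonneg (α := ℝ) (JJ a e k)]) (by norm_num)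
  by_cases h2 : ∀ i, 2 ≤ |(syr a)^[i] y|
  · have h1 : Real.log (minimalPeriod (T a) y) ≤ Real.log (bb e k) :=
      Real.log_le_log (by exact_mod_cast hT.minimalPeriod_pos hp)
        (by exact_mod_cast hT.minimalPeriod_le hp)
    refine h1.trans ((hK y k hy hk hper h2).trans (mul_le_mul_of_nonneg_right ?_ (by linarith)))
    linarith [le_abs_self K]
  · push Not at h2
    obtain ⟨i, hi⟩ := h2
    have h3 : minimalPeriod (T a) y = minimalPeriod (T a) ((syr a)^[i] y) := by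
      rw [← (syr_iter ha ha3 hy i).2, minimalPeriod_apply_iterate (mk_mem_periodicPts hp hT)]
    have h4 : (syr a)^[i] y = 1 ∨ (syr a)^[i] y = -1 := by
      obtain ⟨u, hu⟩ := hodd i
      rw [abs_lt] at hi
      omega
    refine le_trans ?_ (le_mul_of_one_le_right (by linarith) hM)
    rcases h4 with h | h <;> rw [h3, h] <;> linarith

theorem runs (a : ℕ) (ha : Odd a) (ha3 : 3 ≤ a) : ∃ C : ℝ, 0 ≤ C ∧ ∀ y ∈ periodicPts (T a), Odd y →
    Real.log (minimalPeriod (T a) y) ≤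
      C * ((JJ a (fun i => syrE a ((syr a)^[i] y)) (minimalPeriod (syr a) y) : ℝ) + 1) ^
        (27 / 28 : ℝ) := by
  obtain ⟨C, h0, hC⟩ := runs_k a ha ha3
  exact ⟨C, h0, fun y h hy => hC y _ hy
    (minimalPeriod_pos_of_mem_periodicPts (mem_per ha ha3 hy h)) iterate_minimalPeriod⟩

/-- An end of a run has exponent at least two, or the next step has. -/
theorem JJ_le_two {a : ℕ} (e : ℕ → ℕ) (he : ∀ i, 1 ≤ e i) {k : ℕ} (hk : e k = e 0) :
    JJ a e k ≤ 2 * #{i ∈ range k | 2 ≤ e i} := by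
  have h1 : #{i ∈ range k | 2 ≤ e (i + 1)} = #{i ∈ range k | 2 ≤ e i} := by
    have h2 := sum_range_succ (fun i => if 2 ≤ e i then 1 else 0) k
    have h3 := sum_range_succ' (fun i => if 2 ≤ e i then 1 else 0) k
    simp only [card_filter]
    rw [hk] at h2
    omega
  rw [two_mul]
  nth_rewrite 1 [← h1]
  refine le_trans (card_le_card fun i hi => ?_) (card_union_le _ _)
  obtain ⟨h2, -, h3⟩ := mem_filter.1 hi
  have h4 := he i
  have h5 := he (i + 1)
  simp only [mem_union, mem_filter, h2, true_and]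
  omega

/-- For `a = 3` an end of a run is a local maximum of the odd terms. -/
theorem end_three {u v w : ℤ} {e f : ℕ} (he : 1 ≤ e) (hf : 1 ≤ f) (hu : Odd u) (hv : Odd v)
    (hw : Odd w) (h1 : 2 ^ e * v = 3 * u + 1) (h2 : 2 ^ f * w = 3 * v + 1) (h3 : 2 ^ e < 3)
    (h4 : f ≠ e) : |u| < |v| ∧ |w| < |v| := by
  have h5 : e = 1 := by
    by_contra h
    have : 2 ^ 2 ≤ 2 ^ e := Nat.pow_le_pow_right two_pos (by omega)
    omega
  subst h5
  obtain ⟨g, rfl⟩ : ∃ g, f = g + 2 := ⟨f - 2, by omega⟩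
  have h6 : |w| ≤ |2 ^ g * w| := by
    rw [abs_mul]
    exact le_mul_of_one_le_left (abs_nonneg _) (by rw [abs_pow, abs_two]; exact one_le_pow₀ one_le_two)
  have h7 : 4 * (2 ^ g * w) = 3 * v + 1 := by rw [← h2]; ring
  generalize 2 ^ g * w = z at h6 h7
  obtain ⟨u', hu'⟩ := hu
  obtain ⟨v', hv'⟩ := hv
  rw [pow_one] at h1
  constructor
  · rcases abs_cases u with h | h <;> rcases abs_cases v with h' | h' <;> omega
  · rcases abs_cases z with h | h <;> rcases abs_cases v with h' | h' <;> omega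

end Pool.Agent.Lib.MP_dee342_nt.Ar
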