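import Pool.Agent.Lib.MP_dee342_nt.Ar.Seq

/-! Differences to the fixed points of the ascending branches. -/

namespace Pool.Agent.Lib.MP_dee342_nt.Ar

open Finset

theorem rep0 {a : ℕ} (ha3 : 3 ≤ a) (y : ℕ → ℤ) (e : ℕ → ℕ)
    (h : ∀ i, 2 ^ e i * y (i + 1) = a * y i + 1) :
    ∃ (Q : ℕ) (D c : ℕ → ℤ), 1 ≤ Q ∧ Q ≤ a ^ a ∧ (∀ i, |D i - Q * y i| ≤ Q) ∧
      (∀ i, 2 ^ e i * D (i + 1) = a * D i + c i) ∧
      (∀ i, 2 ^ e i < a → e (i + 1) = e i → c i = 0) ∧
      ∀ i, |c i| ≤ Q * (a + 2) * 2 ^ e i := by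
  obtain ⟨w, hw⟩ : ∃ w : ℕ → ℕ,
      w = fun k => if 2 ^ k < a then a.factorial / (a - 2 ^ k) else 0 := ⟨_, rfl⟩
  have w1 : ∀ k, w k ≤ a.factorial := fun k => by
    simp only [hw]
    split_ifs
    exacts [Nat.div_le_self _ _, Nat.zero_le _]
  have w2 : ∀ k, 2 ^ k < a → ((a : ℤ) - 2 ^ k) * w k = a.factorial := fun k hk => by
    have h1 : (a - 2 ^ k) * w k = a.factorial := by
      simp only [hw, if_pos hk]
      exact Nat.mul_div_cancel' (Nat.dvd_factorial (Nat.sub_pos_of_lt hk) (Nat.sub_le _ _))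
    have h2 := congrArg (Nat.cast : ℕ → ℤ) h1
    push_cast [Nat.cast_sub hk.le] at h2
    exact h2
  have z0 : ∀ k, (0 : ℤ) ≤ w k := fun k => Int.natCast_nonneg _
  have z1 : ∀ k, (w k : ℤ) ≤ a.factorial := fun k => Int.ofNat_le.2 (w1 k)
  refine ⟨a.factorial, fun i => a.factorial * y i + w (e i),
    fun i => a.factorial + 2 ^ e i * w (e (i + 1)) - a * w (e i), a.factorial_pos,
    a.factorial_le_pow, fun i => ?_, fun i => ?_, fun i h1 h2 => ?_, fun i => ?_⟩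
  · rw [add_sub_cancel_left, abs_of_nonneg (z0 _)]
    exact z1 _
  · linear_combination (a.factorial : ℤ) * h i
  · simp only [h2]
    linear_combination -w2 _ h1
  · have p1 : (1 : ℤ) ≤ 2 ^ e i := one_le_pow₀ one_le_two
    have q0 : (0 : ℤ) ≤ a.factorial := Int.natCast_nonneg _
    have a0 : (0 : ℤ) ≤ a := Int.natCast_nonneg _
    have b1 := mul_le_mul_of_nonneg_left (z1 (e (i + 1))) (zero_le_one.trans p1)
    have b2 := mul_nonneg (zero_le_one.trans p1) (z0 (e (i + 1)))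
    have b3 := mul_le_mul_of_nonneg_left (z1 (e i)) a0
    have b4 := mul_nonneg a0 (z0 (e i))
    have b5 := le_mul_of_one_le_right q0 p1
    have b6 := le_mul_of_one_le_right (mul_nonneg a0 q0) p1
    rw [abs_le]
    constructor <;> linarith

end Pool.Agent.Lib.MP_dee342_nt.Ar
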