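import Pool.Agent.Lib.MP_dee342_nt.Ar.Seq

/-! Differences to the periodic points of ascending exponent words of length `v`. -/

namespace Pool.Agent.Lib.MP_dee342_nt.Ar

open Finset

theorem word_const {a : ℕ} (ha : 1 ≤ a) (y : ℕ → ℤ) (e : ℕ → ℕ)
    (h : ∀ i, 2 ^ e i * y (i + 1) = a * y i + 1) (i v : ℕ) :
    |2 ^ (∑ j ∈ range v, e (i + j)) * y (i + v) - a ^ v * y i| ≤
      v * a ^ v * 2 ^ ∑ j ∈ range v, e (i + j) := by
  have ha' : (1 : ℤ) ≤ a := by exact_mod_cast ha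
  induction v with
  | zero => simp
  | succ v ih =>
    have e1 : (2 : ℤ) ^ (∑ j ∈ range (v + 1), e (i + j)) * y (i + (v + 1)) - a ^ (v + 1) * y i =
        a * (2 ^ (∑ j ∈ range v, e (i + j)) * y (i + v) - a ^ v * y i) +
          2 ^ ∑ j ∈ range v, e (i + j) := by
      rw [sum_range_succ, pow_add, mul_assoc, ← add_assoc, h]
      ring
    have h1 : (2 : ℤ) ^ (∑ j ∈ range v, e (i + j)) ≤ 2 ^ ∑ j ∈ range (v + 1), e (i + j) :=
      pow_le_pow_right₀ one_le_two (by rw [sum_range_succ]; omega)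
    have h2 : (1 : ℤ) ≤ (a : ℤ) ^ (v + 1) := one_le_pow₀ ha'
    have h3 : (0 : ℤ) < 2 ^ ∑ j ∈ range v, e (i + j) := by positivity
    rw [e1]
    refine (abs_add_le _ _).trans ?_
    rw [abs_mul, abs_of_pos h3, abs_of_nonneg (by omega : (0 : ℤ) ≤ a)]
    calc _ ≤ (a : ℤ) * (v * a ^ v * 2 ^ ∑ j ∈ range v, e (i + j)) +
          (a : ℤ) ^ (v + 1) * 2 ^ ∑ j ∈ range v, e (i + j) :=
          add_le_add (mul_le_mul_of_nonneg_left ih (by omega)) (le_mul_of_one_le_left h3.le h2)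
      _ = ((v + 1 : ℕ) : ℤ) * a ^ (v + 1) * 2 ^ ∑ j ∈ range v, e (i + j) := by push_cast; ring
      _ ≤ _ := mul_le_mul_of_nonneg_left h1 (by positivity)

theorem sum_shift (e : ℕ → ℕ) {i v : ℕ} (h : e (i + v) = e i) :
    ∑ j ∈ range v, e (i + 1 + j) = ∑ j ∈ range v, e (i + j) := by
  have h1 := sum_range_succ (fun j => e (i + j)) v
  have h2 := sum_range_succ' (fun j => e (i + j)) v
  have h3 : ∑ j ∈ range v, e (i + 1 + j) = ∑ j ∈ range v, e (i + (j + 1)) :=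
    sum_congr rfl fun j _ => by rw [add_assoc, add_comm 1 j]
  simp only [add_zero] at h2
  omega

theorem repV {a : ℕ} (ha : 1 ≤ a) (v : ℕ) : ∃ Q P : ℕ, 1 ≤ Q ∧ Q ≤ P ∧ ∀ (y : ℕ → ℤ) (e : ℕ → ℕ),
    (∀ i, 2 ^ e i * y (i + 1) = a * y i + 1) →
    ∃ D c : ℕ → ℤ, (∀ i, |D i - Q * y i| ≤ P) ∧ (∀ i, 2 ^ e i * D (i + 1) = a * D i + c i) ∧
      (∀ i, 2 ^ (∑ j ∈ range v, e (i + j)) < a ^ v → e (i + v) = e i → c i = 0) ∧
      ∀ i, |c i| ≤ P * (a + 2) * 2 ^ e i := by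
  obtain ⟨Q, hQ⟩ : ∃ Q, Q = (a ^ v).factorial := ⟨_, rfl⟩
  have hQ1 : 1 ≤ Q := hQ ▸ Nat.factorial_pos _
  obtain ⟨A, hA⟩ : ∃ A, A = v * a ^ v * a ^ v + 1 := ⟨_, rfl⟩
  refine ⟨Q, Q * A, hQ1, Nat.le_mul_of_pos_right _ (by omega), fun y e h => ?_⟩
  obtain ⟨S, hS⟩ : ∃ S : ℕ → ℕ, S = fun i => ∑ j ∈ range v, e (i + j) := ⟨_, rfl⟩
  obtain ⟨D, hD⟩ : ∃ D : ℕ → ℤ, D = fun i => if 2 ^ S i < a ^ v then
    ((Q / (a ^ v - 2 ^ S i) : ℕ) : ℤ) * (2 ^ S i * (y (i + v) - y i)) else Q * y i := ⟨_, rfl⟩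
  have hQA : (0 : ℤ) ≤ (Q * A : ℕ) := Nat.cast_nonneg _
  have h1 : ∀ i, |D i - Q * y i| ≤ (Q * A : ℕ) := by
    intro i
    by_cases hi : 2 ^ S i < a ^ v
    · have h2 : Q / (a ^ v - 2 ^ S i) * (a ^ v - 2 ^ S i) = Q :=
        Nat.div_mul_cancel (hQ ▸ Nat.dvd_factorial (by omega) (Nat.sub_le _ _))
      have h3 : ((Q / (a ^ v - 2 ^ S i) : ℕ) : ℤ) * (a ^ v - 2 ^ S i) = Q := by
        have := congrArg (Nat.cast : ℕ → ℤ) h2
        rwa [Nat.cast_mul, Nat.cast_sub hi.le, Nat.cast_pow, Nat.cast_pow, Nat.cast_ofNat] at this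
      have h4 : D i - Q * y i =
          ((Q / (a ^ v - 2 ^ S i) : ℕ) : ℤ) * (2 ^ S i * y (i + v) - a ^ v * y i) := by
        simp only [hD, if_pos hi]
        linear_combination (y i) * h3
      have h5 := word_const ha y e h i v
      have h6 : (2 : ℤ) ^ S i ≤ a ^ v := by exact_mod_cast hi.le
      have h7 : |2 ^ S i * y (i + v) - a ^ v * y i| ≤ A := by
        have e1 : ∑ j ∈ range v, e (i + j) = S i := by rw [hS]
        rw [e1] at h5
        have h8 := mul_le_mul_of_nonneg_left h6 (show (0 : ℤ) ≤ v * a ^ v by positivity)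
        rw [hA]
        push_cast
        linarith
      rw [h4, abs_mul, Nat.abs_cast, Nat.cast_mul]
      exact mul_le_mul (by exact_mod_cast Nat.div_le_self _ _) h7 (abs_nonneg _) (by positivity)
    · simp only [hD, if_neg hi, sub_self, abs_zero]
      exact hQA
  refine ⟨D, fun i => 2 ^ e i * D (i + 1) - a * D i, h1, fun i => by ring, fun i hi hv => ?_,
    fun i => ?_⟩
  · have e1 : S (i + 1) = S i := by
      simp only [hS]
      exact sum_shift e hv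
    have hi' : 2 ^ S i < a ^ v := by rwa [hS]
    have h2 := h (i + v)
    rw [hv] at h2
    simp only [hD, e1, if_pos hi']
    rw [add_right_comm i 1 v]
    linear_combination (((Q / (a ^ v - 2 ^ S i) : ℕ) : ℤ) * 2 ^ S i) * (h2 - h i)
  · have e1 : 2 ^ e i * D (i + 1) - a * D i =
        Q + 2 ^ e i * (D (i + 1) - Q * y (i + 1)) - a * (D i - Q * y i) := by
      linear_combination (Q : ℤ) * h i
    have h2 : (1 : ℤ) ≤ 2 ^ e i := one_le_pow₀ one_le_two
    have h3 : (Q : ℤ) ≤ (Q * A : ℕ) := by exact_mod_cast Nat.le_mul_of_pos_right _ (by omega)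
    have h4 : |2 ^ e i * (D (i + 1) - Q * y (i + 1))| ≤ 2 ^ e i * (Q * A : ℕ) := by
      rw [abs_mul, abs_of_nonneg (by omega)]
      exact mul_le_mul_of_nonneg_left (h1 _) (by omega)
    have h5 : |a * (D i - Q * y i)| ≤ a * (Q * A : ℕ) := by
      rw [abs_mul, Nat.abs_cast]
      exact mul_le_mul_of_nonneg_left (h1 _) (by positivity)
    have h6 : ((a : ℤ) + 1) * (Q * A : ℕ) ≤ (a + 1) * (Q * A : ℕ) * 2 ^ e i :=
      le_mul_of_one_le_right (by positivity) h2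
    change |2 ^ e i * D (i + 1) - a * D i| ≤ _
    rw [e1]
    rw [abs_le] at h4 h5 ⊢
    have h7 : (0 : ℤ) ≤ Q := Nat.cast_nonneg _
    constructor <;> nlinarith [h4.1, h4.2, h5.1, h5.2]

/-- The length of a run along a periodic word. -/
theorem len_riseV {a : ℕ} (ha : Odd a) (y : ℕ → ℤ) (e : ℕ → ℕ)
    (h : ∀ i, 2 ^ e i * y (i + 1) = a * y i + 1) {L k v : ℕ} (he : ∀ i < k, e (i + v) = e i)
    (h2 : y v ≠ y 0) (hL : |y 0| ≤ 2 ^ L) : bb e k ≤ L + a * v + 1 := by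
  have key : ∀ t ≤ k, 2 ^ bb e t * (y (t + v) - y t) = a ^ t * (y v - y 0) := by
    intro t
    induction t with
    | zero => simp [bb]
    | succ t ih =>
      intro ht
      have h3 := h (t + v)
      rw [he t ht] at h3
      rw [bb_succ, pow_add, pow_succ, add_right_comm t 1 v]
      linear_combination (2 : ℤ) ^ bb e t * (h3 - h t) + (a : ℤ) * ih (by omega)
  have hc : IsCoprime ((2 : ℤ) ^ bb e k) ((a : ℤ) ^ k) := by
    have h3 : IsCoprime ((2 : ℕ) : ℤ) (a : ℤ) :=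
      Nat.isCoprime_iff_coprime.2 (Nat.coprime_two_left.2 ha)
    exact_mod_cast h3.pow
  have h3 : (2 : ℤ) ^ bb e k ∣ y v - y 0 := hc.dvd_of_dvd_mul_left ⟨_, (key k le_rfl).symm⟩
  have h4 := Int.le_of_dvd (abs_pos.2 (sub_ne_zero.2 h2)) ((dvd_abs _ _).2 h3)
  have h5 : ∀ t, |y t| ≤ 2 ^ (L + a * t) := by
    intro t
    induction t with
    | zero => simpa using hL
    | succ t ih =>
      have h6 : |y (t + 1)| ≤ |a * y t + 1| := by
        rw [← h t, abs_mul]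
        exact le_mul_of_one_le_left (abs_nonneg _) (by
          rw [abs_pow, abs_two]; exact one_le_pow₀ one_le_two)
      have h7 : (a : ℤ) + 1 ≤ 2 ^ a := by exact_mod_cast Nat.lt_two_pow_self
      have h8 : (1 : ℤ) ≤ 2 ^ (L + a * t) := one_le_pow₀ one_le_two
      have h9 : |a * y t + 1| ≤ a * 2 ^ (L + a * t) + 1 := by
        refine (abs_add_le _ _).trans ?_
        rw [abs_mul, Nat.abs_cast, abs_one]
        exact add_le_add_left (mul_le_mul_of_nonneg_left ih (by positivity)) 1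
      rw [mul_add, mul_one, ← add_assoc, pow_add]
      nlinarith
  have h6 : |y v - y 0| ≤ 2 ^ (L + a * v + 1) := by
    have h7 : (2 : ℤ) ^ L ≤ 2 ^ (L + a * v) := pow_le_pow_right₀ one_le_two (by omega)
    have h8 := abs_sub (y v) (y 0)
    have h9 := h5 v
    rw [pow_succ]
    linarith
  exact (pow_le_pow_iff_right₀ (by norm_num : (1 : ℤ) < 2)).1 (h4.trans h6)

end Pool.Agent.Lib.MP_dee342_nt.Ar
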